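import Pool.Agent.Lib.MP_1a91b9_ntX.LF.Defs
import Pool.Agent.Lib.MP_1a91b9_ntT.CT.Pd2

/-!
# The periods of `y² = x³ + d`

Proof. Let `r` be the real cube root of `d / 16`: `16 r³ = d`, `r ≠ 0` (for `d > 0`: `r = (d / 16) ^ (1 / 3)`, for `d < 0` the negative of it for `-d`), `a = √|r|`: `a > 0`, `a ^ 6 = |d| / 16`; conversely the `a` of the statement is this one (`a ^ 6` is injective on positive numbers).
`(crv (d : N)).map φ = crv (d : ℝ) = tw r` for a real embedding, `= tw (r : ℂ)` for a complex embedding (`tw d = ⟨0,0,0,0,16 d³⟩`, file MP_1a91b9_ntT/TW; `crv_map`).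
`perR_tw`, `perC_tw` (CT/Pc): `perAt (crv d) v = (√3 or 1) * (‖Om‖ / (2 a)) ^ mult v`, with `1` iff `v` is real and `d < 0`: see `Pd1_perAt_tw` in MP_1a91b9_ntT/CT/Pd1.lean for the same computation. Product: `Finset.prod_pow_eq_pow_sum`, `InfinitePlace.sum_mult_eq` (see `prod_perAt` in MP_1a91b9_ntT/P/Unit.lean):
for `d > 0` the power of `√3` is the number of all places, for `d < 0` the number of the complex places.
`prod_vc` (CT/Pd1) for `W`.
-/

set_option autoImplicit false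

namespace Pool.Agent.Lib.MP_1a91b9_ntX.RG

open NumberField IsDedekindDomain WeierstrassCurve Pool.Agent.Lib.MP_1a91b9_ntT
  Pool.Agent.Lib.MP_1a91b9_ntT.Per Pool.Agent.Lib.MP_1a91b9_ntT.CT Pool.Agent.Lib.MP_1a91b9_ntX.LF

variable {N : Type*} [Field N] [NumberField N]

open Classical in
private theorem Per_at {d : ℤ} {r a : ℝ} (hr : r ≠ 0) (h16 : 16 * r ^ 3 = (d : ℝ))
    (hs : Real.sqrt |r| = a) (v : InfinitePlace N) :
    perAt (crv (d : N)) v =
      (if v.IsReal ∧ ¬ 0 < r then 1 else Real.sqrt 3) * (‖Om‖ / (2 * a)) ^ v.mult := by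
  rw [perAt]
  split_ifs with h h2 h2
  · have e : (crv (d : N)).map (InfinitePlace.embedding_of_isReal h) = TW.tw r := by
      rw [crv_map, map_intCast, ← h16]
      rfl
    rw [e, perR_tw _ hr, if_neg h2.2, hs, InfinitePlace.mult, if_pos h, pow_one]
  · have e : (crv (d : N)).map (InfinitePlace.embedding_of_isReal h) = TW.tw r := by
      rw [crv_map, map_intCast, ← h16]
      rfl
    have h3 : 0 < r := by
      by_contra h4
      exact h2 ⟨h, h4⟩
    rw [e, perR_tw _ hr, if_pos h3, hs, InfinitePlace.mult, if_pos h, pow_one]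
  · exact absurd h2.1 h
  · have e : (crv (d : N)).map v.embedding = TW.tw (r : ℂ) := by
      rw [crv_map, map_intCast]
      have h3 : (d : ℂ) = 16 * (r : ℂ) ^ 3 := by
        have := congrArg (fun t : ℝ => (t : ℂ)) h16
        push_cast at this
        exact this.symm
      rw [h3]
      rfl
    have h0 : (r : ℂ) ≠ 0 := by exact_mod_cast hr
    have hn : ‖(r : ℂ)‖ = |r| := by rw [Complex.norm_real, Real.norm_eq_abs]
    rw [e, perC_tw _ h0, hn, hs, InfinitePlace.mult, if_neg h]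
    ring

private theorem Per_exists {d : ℤ} (hd : d ≠ 0) : ∃ a : ℝ, 0 < a ∧ a ^ 6 = |(d : ℝ)| / 16 := by
  have h0 : 0 < |(d : ℝ)| / 16 := by
    have : (0 : ℝ) < |(d : ℝ)| := abs_pos.2 (by exact_mod_cast hd)
    positivity
  refine ⟨(|(d : ℝ)| / 16) ^ (((6 : ℕ) : ℝ)⁻¹), Real.rpow_pos_of_pos h0 _, ?_⟩
  exact Real.rpow_inv_natCast_pow h0.le (by norm_num)

private theorem Per_scale {d : ℤ} {a : ℝ} (ha6 : a ^ 6 = |(d : ℝ)| / 16) :
    (Real.sqrt 3 * a) ^ 6 = |((-27 * d : ℤ) : ℝ)| / 16 := by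
  have h3 : Real.sqrt 3 ^ 6 = 27 := by
    have : Real.sqrt 3 ^ 6 = (Real.sqrt 3 ^ 2) ^ 3 := by ring
    rw [this, Real.sq_sqrt (by norm_num)]
    norm_num
  rw [mul_pow, ha6, h3]
  push_cast
  rw [abs_mul]
  norm_num
  ring

/-- positive `d` -/
theorem prod_crv_pos {d : ℤ} (hd : 0 < d) {a : ℝ} (ha : 0 < a) (ha6 : a ^ 6 = |(d : ℝ)| / 16) :
    ∏ v : InfinitePlace N, perAt (crv (d : N)) v =
      Real.sqrt 3 ^ Fintype.card (InfinitePlace N) *
        (‖Om‖ / (2 * a)) ^ Module.finrank ℚ N := by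
  have ha2 : a ^ 2 ≠ 0 := pow_ne_zero 2 ha.ne'
  have h16 : 16 * (a ^ 2) ^ 3 = (d : ℝ) := by
    have h1 : |(d : ℝ)| = d := abs_of_pos (by exact_mod_cast hd)
    rw [h1] at ha6
    rw [← pow_mul, ha6]
    ring
  have hs : Real.sqrt |a ^ 2| = a := by rw [abs_of_nonneg (sq_nonneg a), Real.sqrt_sq ha.le]
  have hpos : 0 < a ^ 2 := by positivity
  have h : ∀ v : InfinitePlace N, perAt (crv (d : N)) v =
      Real.sqrt 3 * (‖Om‖ / (2 * a)) ^ v.mult := by
    intro v
    rw [Per_at ha2 h16 hs v, if_neg (fun h => h.2 hpos)]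
  simp only [h]
  rw [Finset.prod_mul_distrib, Finset.prod_const, Finset.card_univ, Finset.prod_pow_eq_pow_sum,
    InfinitePlace.sum_mult_eq]

/-- negative `d` -/
theorem prod_crv_neg {d : ℤ} (hd : d < 0) {a : ℝ} (ha : 0 < a) (ha6 : a ^ 6 = |(d : ℝ)| / 16) :
    ∏ v : InfinitePlace N, perAt (crv (d : N)) v =
      Real.sqrt 3 ^ InfinitePlace.nrComplexPlaces N *
        (‖Om‖ / (2 * a)) ^ Module.finrank ℚ N := by
  classical
  have ha2 : -a ^ 2 ≠ 0 := neg_ne_zero.2 (pow_ne_zero 2 ha.ne')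
  have h16 : 16 * (-a ^ 2) ^ 3 = (d : ℝ) := by
    have h1 : |(d : ℝ)| = -d := abs_of_neg (by exact_mod_cast hd)
    rw [h1] at ha6
    have h2 : (-a ^ 2) ^ 3 = -(a ^ 6) := by ring
    rw [h2, ha6]
    ring
  have hs : Real.sqrt |-a ^ 2| = a := by
    rw [abs_neg, abs_of_nonneg (sq_nonneg a), Real.sqrt_sq ha.le]
  have hneg : ¬ 0 < -a ^ 2 := by
    have : 0 < a ^ 2 := by positivity
    linarith
  have h : ∀ v : InfinitePlace N, perAt (crv (d : N)) v =
      (if v.IsReal then 1 else Real.sqrt 3) * (‖Om‖ / (2 * a)) ^ v.mult := by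
    intro v
    rw [Per_at ha2 h16 hs v]
    congr 1
    by_cases hv : v.IsReal
    · rw [if_pos ⟨hv, hneg⟩, if_pos hv]
    · rw [if_neg (fun h => hv h.1), if_neg hv]
  simp only [h]
  rw [Finset.prod_mul_distrib, Finset.prod_pow_eq_pow_sum, InfinitePlace.sum_mult_eq,
    Finset.prod_ite, Finset.prod_const_one, one_mul, Finset.prod_const]
  congr 2
  rw [InfinitePlace.nrComplexPlaces, Fintype.card_subtype]
  congr 1
  ext v
  simp only [Finset.mem_filter, Finset.mem_univ, true_and]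
  exact InfinitePlace.not_isReal_iff_isComplex

/-- The products of the periods of a curve isomorphic to `y² = x³ + d`. -/
theorem prod_iso {d : ℤ} (W : WeierstrassCurve N) (C : VariableChange N)
    (hC : C • W = crv (d : N)) :
    ∏ v : InfinitePlace N, perAt (crv (d : N)) v =
      |(Algebra.norm ℚ (C.u : N) : ℝ)| * ∏ v : InfinitePlace N, perAt W v := by
  rw [← hC, prod_vc]

/-- The periods for `d` and `-27 d` are the same up to a rational number. -/
theorem prod_neg27 {d : ℤ} (hd : d ≠ 0) :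
    ∃ q : ℚ, q ≠ 0 ∧ ∏ v : InfinitePlace N, perAt (crv ((-27 * d : ℤ) : N)) v =
      (q : ℝ) * ∏ v : InfinitePlace N, perAt (crv (d : N)) v := by
  obtain ⟨a, ha, ha6⟩ := Per_exists hd
  have hs := Per_scale ha6
  have h3 : (0 : ℝ) < Real.sqrt 3 := Real.sqrt_pos.2 (by norm_num)
  have hsa : 0 < Real.sqrt 3 * a := mul_pos h3 ha
  have hc := InfinitePlace.card_eq_nrRealPlaces_add_nrComplexPlaces (K := N)
  have hr := InfinitePlace.card_add_two_mul_card_eq_rank N
  have hsq : Real.sqrt 3 ^ 2 = 3 := Real.sq_sqrt (by norm_num)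
  have hX : ∀ n : ℕ, (‖Om‖ / (2 * (Real.sqrt 3 * a))) ^ n =
      (‖Om‖ / (2 * a)) ^ n / Real.sqrt 3 ^ n := by
    intro n
    rw [← div_pow]
    congr 1
    field_simp
  rcases lt_or_gt_of_ne hd with h | h
  · -- negative
    have hd' : (0 : ℤ) < -27 * d := by linarith
    refine ⟨((3 : ℚ) ^ InfinitePlace.nrComplexPlaces N)⁻¹, by positivity, ?_⟩
    rw [prod_crv_pos hd' hsa hs, prod_crv_neg h ha ha6, hX, hc, ← hr]
    push_cast
    have e1 : Real.sqrt 3 ^ (InfinitePlace.nrRealPlaces N + 2 * InfinitePlace.nrComplexPlaces N) =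
        Real.sqrt 3 ^ InfinitePlace.nrRealPlaces N * 3 ^ InfinitePlace.nrComplexPlaces N := by
      rw [pow_add, pow_mul, hsq]
    rw [e1, pow_add (Real.sqrt 3) (InfinitePlace.nrRealPlaces N)]
    have h4 : Real.sqrt 3 ^ InfinitePlace.nrRealPlaces N ≠ 0 := pow_ne_zero _ h3.ne'
    have h5 : (3 : ℝ) ^ InfinitePlace.nrComplexPlaces N ≠ 0 := pow_ne_zero _ (by norm_num)
    field_simp
  · -- positive
    have hd' : -27 * d < (0 : ℤ) := by linarith
    refine ⟨((3 : ℚ) ^ (InfinitePlace.nrRealPlaces N + InfinitePlace.nrComplexPlaces N))⁻¹, by positivity, ?_⟩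
    rw [prod_crv_neg hd' hsa hs, prod_crv_pos h ha ha6, hX, hc, ← hr]
    push_cast
    have e1 : Real.sqrt 3 ^ (InfinitePlace.nrRealPlaces N + 2 * InfinitePlace.nrComplexPlaces N) =
        Real.sqrt 3 ^ InfinitePlace.nrRealPlaces N * 3 ^ InfinitePlace.nrComplexPlaces N := by
      rw [pow_add, pow_mul, hsq]
    have e2 : (3 : ℝ) ^ InfinitePlace.nrRealPlaces N =
        Real.sqrt 3 ^ InfinitePlace.nrRealPlaces N * Real.sqrt 3 ^ InfinitePlace.nrRealPlaces N := by
      rw [← mul_pow, Real.mul_self_sqrt (by norm_num)]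
    rw [e1, pow_add (Real.sqrt 3) (InfinitePlace.nrRealPlaces N), pow_add (3 : ℝ), e2]
    have h4 : Real.sqrt 3 ^ InfinitePlace.nrRealPlaces N ≠ 0 := pow_ne_zero _ h3.ne'
    have h5 : (3 : ℝ) ^ InfinitePlace.nrComplexPlaces N ≠ 0 := pow_ne_zero _ (by norm_num)
    field_simp

end Pool.Agent.Lib.MP_1a91b9_ntX.RG
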