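import Pool.Agent.Lib.MP_1a91b9_ntX.RG.Lv
import Pool.Agent.Lib.MP_1a91b9_ntX.RG.Per
import Pool.Agent.Lib.MP_1a91b9_ntX.LF.Ser
import Pool.Agent.Lib.MP_1a91b9_ntT.Rg.Fin

/-!
# The quotient `L(W/N, 1) √|disc N| / ∏ Ω_v` is rational

Proof. Adapt MP_1a91b9_ntT/Rg/Fin.lean (`rat_K`, `rat_N`; see also MP_1a91b9_ntT/Rq/Fin.lean). Inputs `lval` (RG/Lv), `prod_crv_pos`, `prod_crv_neg`, `prod_iso`, `prod_neg27` (RG/Per) . Let `a > 0` with `a ^ 6 = |D| / 16` (`D = DD.D`).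
Choice of `δ`: `δ = a` if `D > 0`, `δ = a * I` if `D < 0` (`I ^ 6 = -1`): `16 δ ^ 6 = D`, `‖δ‖ = a`.
`rat_K`: `LSeries_K` (LF/Ser) and `LF.Lf_conj`; `g s = conj (L (conj s)) * L s`, `g 1 = ‖L 1‖²`, `‖L 1‖² = (‖Om‖ / a) ^ (2 n) * ‖dt‖² * ‖embK x‖²`: as in the old proof with `‖Om‖ / a` in place of `‖Om‖`; the product of the periods of `crv D` over `F` (totally complex, `n` places) is `√3 ^ n * (‖Om‖ / (2 a)) ^ (2 n)` for both signs of `D`; `prod_iso`.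
`rat_N`: `n = finrank K F = finrank ℚ N`. `LSeries_N` (LF/Ser): `W.LSeries s = Lf (psbC F) s` for `3/2 < Re s`, so `g = L`. In the old proof: `L 1 = Om ^ n * dt * x`, and `L 1 √|disc N| = rational * √3 ^ (..) * ‖Om‖ ^ n` is deduced (`disc_N`, `ar_real`, ..). Now `L 1 = (Om / δ) ^ n * dt * x`. If `D > 0`: `L 1 = (Om / a) ^ n * dt * x`, as before with `Om / a` in place of `Om`
(`a` real and positive). If `D < 0`: `(1 / I) ^ n = (- I) ^ n = (-(√-3) / √3) ^ n` with `√-3 = 2 om + 1 ∈ K` (`embK (2 om + 1) = I √3` or `- I √3`; its square is `-3`), so `L 1 = (Om / a) ^ n * dt * x' / √3 ^ n`, `x' ∈ K`. The products of the periods for `D < 0` and `D > 0` differ by `√3 ^ (number of the real places)`, and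
`n = (number of real places) + 2 (number of complex places)`, so the result is the same up to a power of `3`. Case `d = -27 D`: `prod_neg27`.
(The realness argument of the old proof, e.g. that `L 1` is real: the L-series of `W` has rational coefficients; keep it as it is.)
-/

set_option autoImplicit false

namespace Pool.Agent.Lib.MP_1a91b9_ntX.RG

open NumberField IsDedekindDomain WeierstrassCurve Pool.Agent.Lib.MP_1a91b9_nt
  Pool.Agent.Lib.MP_1a91b9_ntT Pool.Agent.Lib.MP_1a91b9_ntX.LF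
open Pool.Agent.Lib.MP_1a91b9_ntT.Per (perAt)

universe u

private theorem Fin_delta [DD] : ∃ (a : ℝ) (δ : ℂ), 0 < a ∧ a ^ 6 = |((DD.D : ℤ) : ℝ)| / 16 ∧
    16 * δ ^ 6 = dD ℂ ∧ ‖δ‖ = a ∧
      ((0 < DD.D ∧ δ = (a : ℂ)) ∨ (DD.D < 0 ∧ δ = (a : ℂ) * Complex.I)) := by
  have h0 : ((DD.D : ℤ) : ℝ) ≠ 0 := by exact_mod_cast DD.ne
  have h1 : 0 < |((DD.D : ℤ) : ℝ)| / 16 := by
    have := abs_pos.2 h0
    positivity
  obtain ⟨a, ha, ha6⟩ : ∃ a : ℝ, 0 < a ∧ a ^ 6 = |((DD.D : ℤ) : ℝ)| / 16 := by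
    refine ⟨(|((DD.D : ℤ) : ℝ)| / 16) ^ ((6 : ℝ)⁻¹), Real.rpow_pos_of_pos h1 _, ?_⟩
    have h2 := Real.rpow_inv_natCast_pow h1.le (n := 6) (by norm_num)
    rw [Nat.cast_ofNat] at h2
    exact h2
  have hac : (a : ℂ) ^ 6 = ((|((DD.D : ℤ) : ℝ)| / 16 : ℝ) : ℂ) := by
    rw [← Complex.ofReal_pow, ha6]
  rcases lt_or_gt_of_ne DD.ne with hD | hD
  · refine ⟨a, (a : ℂ) * Complex.I, ha, ha6, ?_, ?_, Or.inr ⟨hD, rfl⟩⟩
    · have hD' : ((DD.D : ℤ) : ℝ) < 0 := by exact_mod_cast hD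
      have h3 : Complex.I ^ 6 = -1 := by
        have h1 : Complex.I ^ 6 = (Complex.I ^ 2) ^ 3 := by ring
        rw [h1, Complex.I_sq]
        norm_num
      rw [mul_pow, h3, hac, abs_of_neg hD']
      push_cast
      ring
    · rw [norm_mul, Complex.norm_I, mul_one, Complex.norm_real, Real.norm_of_nonneg ha.le]
  · refine ⟨a, (a : ℂ), ha, ha6, ?_, ?_, Or.inl ⟨hD, rfl⟩⟩
    · have hD' : 0 < ((DD.D : ℤ) : ℝ) := by exact_mod_cast hD
      rw [hac, abs_of_pos hD']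
      push_cast
      ring
    · rw [Complex.norm_real, Real.norm_of_nonneg ha.le]

/-- The product of the periods as a rational multiple of the periods of `crv D`. -/
private theorem Fin_ratio [DD] {N : Type*} [Field N] [NumberField N] (d : ℤ)
    (hd : d = DD.D ∨ d = -27 * DD.D) (W : WeierstrassCurve N) (C : VariableChange N)
    (hC : C • W = crv (d : N)) :
    ∃ q : ℚ, q ≠ 0 ∧ ∏ v : InfinitePlace N, perAt (crv ((DD.D : ℤ) : N)) v =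
      (q : ℝ) * ∏ v : InfinitePlace N, perAt W v := by
  have h1 := prod_iso W C hC
  have hu : Algebra.norm ℚ (C.u : N) ≠ 0 := Algebra.norm_ne_zero_iff.2 C.u.ne_zero
  have hua : |Algebra.norm ℚ (C.u : N)| ≠ 0 := abs_ne_zero.2 hu
  rcases hd with rfl | rfl
  · refine ⟨|Algebra.norm ℚ (C.u : N)|, hua, ?_⟩
    rw [h1]
    push_cast
    rfl
  · obtain ⟨q, hq0, hq⟩ := prod_neg27 (N := N) (d := DD.D) DD.ne
    refine ⟨q⁻¹ * |Algebra.norm ℚ (C.u : N)|, mul_ne_zero (inv_ne_zero hq0) hua, ?_⟩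
    have hq0' : (q : ℝ) ≠ 0 := by exact_mod_cast hq0
    have h2 : ∏ v : InfinitePlace N, perAt (crv ((DD.D : ℤ) : N)) v = (q : ℝ)⁻¹ *
        ∏ v : InfinitePlace N, perAt (crv ((-27 * DD.D : ℤ) : N)) v := by
      rw [hq, ← mul_assoc, inv_mul_cancel₀ hq0', one_mul]
    rw [h2, h1]
    push_cast
    ring

private theorem Fin_om {n : ℕ} : ((‖Om‖ : ℝ)) ^ n ≠ 0 := pow_ne_zero _ (norm_ne_zero_iff.2 Om_ne_zero)

/-- The arithmetic of the case of `N`. -/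
private theorem Fin_arith [DD] {N : Type u} [Field N] [NumberField N] {a : ℝ} {δ : ℂ} (ha : 0 < a)
    (ha6 : a ^ 6 = |((DD.D : ℤ) : ℝ)| / 16)
    (hcase : (0 < DD.D ∧ δ = (a : ℂ)) ∨ (DD.D < 0 ∧ δ = (a : ℂ) * Complex.I))
    (κ : K) (dt : ℂ) (q : ℚ) (hq : dt ^ 2 = ((q ^ 2 * (discr N : ℚ) : ℚ) : ℂ)) (R : ℝ)
    (h : (Om / δ) ^ Module.finrank ℚ N * dt * embK κ * ((Real.sqrt |(discr N : ℝ)| : ℝ) : ℂ) =
      (R : ℂ) * ((∏ v : InfinitePlace N, perAt (crv ((DD.D : ℤ) : N)) v : ℝ) : ℂ)) :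
    ∃ r : ℚ, (r : ℝ) = R := by
  have hrk := InfinitePlace.card_add_two_mul_card_eq_rank N
  have hcard := InfinitePlace.card_eq_nrRealPlaces_add_nrComplexPlaces N
  have hpos := prod_crv_pos (N := N) (d := DD.D) (a := a)
  have hneg := prod_crv_neg (N := N) (d := DD.D) (a := a)
  have hsgn : (discr N : ℝ) = (-1) ^ InfinitePlace.nrComplexPlaces N * |(discr N : ℝ)| := by
    have h1 := sign_discr (K := N)
    have h2 := Int.sign_mul_abs (discr N)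
    rw [h1] at h2
    have h3 : (((-1) ^ InfinitePlace.nrComplexPlaces N * |discr N| : ℤ) : ℝ) =
        ((discr N : ℤ) : ℝ) := by rw [h2]
    push_cast at h3
    exact h3.symm
  obtain ⟨r1, hr1⟩ : ∃ r, r = InfinitePlace.nrRealPlaces N := ⟨_, rfl⟩
  obtain ⟨r2, hr2⟩ : ∃ r, r = InfinitePlace.nrComplexPlaces N := ⟨_, rfl⟩
  rw [← hr1, ← hr2] at hrk hcard
  rw [← hr2] at hneg hsgn
  rw [← hrk] at hpos hneg h
  rw [hcard] at hpos
  have hac : (a : ℂ) ≠ 0 := by exact_mod_cast ha.ne'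
  have han : (a : ℂ) ^ (r1 + 2 * r2) ≠ 0 := pow_ne_zero _ hac
  have h2n : (2 : ℂ) ^ (r1 + 2 * r2) ≠ 0 := pow_ne_zero _ two_ne_zero
  have fin : (∃ κ' : K, Om ^ (r1 + 2 * r2) * dt * embK κ' * ((Real.sqrt |(discr N : ℝ)| : ℝ) : ℂ) =
      ((R / 2 ^ (r1 + 2 * r2) : ℝ) : ℂ) *
        ((Real.sqrt 3 ^ (r1 + r2) * ‖Om‖ ^ (r1 + 2 * r2) : ℝ) : ℂ)) → ∃ r : ℚ, (r : ℝ) = R := by
    rintro ⟨κ', h'⟩
    obtain ⟨r, hr⟩ := Rq.ar_real r1 r2 κ' dt q (discr N) (discr_ne_zero N) hsgn hq _ h'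
    refine ⟨r * 2 ^ (r1 + 2 * r2), ?_⟩
    push_cast
    rw [hr, div_mul_cancel₀ _ (pow_ne_zero _ two_ne_zero)]
  refine fin ?_
  rcases hcase with ⟨hD, hδ⟩ | ⟨hD, hδ⟩
  · rw [hpos hD ha ha6, hδ] at h
    refine ⟨κ, ?_⟩
    push_cast at h ⊢
    rw [div_pow, div_pow, mul_pow] at h
    field_simp at h ⊢
    linear_combination h
  · rw [hneg hD ha ha6, hδ] at h
    obtain ⟨y, hy⟩ := Rq.ar_I
    refine ⟨κ * ((-y) ^ r1 * (-1) ^ r2), ?_⟩
    have hI : Complex.I ^ (r1 + 2 * r2) ≠ 0 := pow_ne_zero _ Complex.I_ne_zero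
    have e1 : embK (κ * ((-y) ^ r1 * (-1) ^ r2)) =
        embK κ * (((Real.sqrt 3 : ℝ) : ℂ) ^ r1 / Complex.I ^ (r1 + 2 * r2)) := by
      rw [map_mul, map_mul, map_pow, map_pow, map_neg, map_neg, map_one, hy]
      congr 1
      rw [eq_div_iff hI, pow_add, pow_mul, Complex.I_sq]
      have e2 : (-(Complex.I * ((Real.sqrt 3 : ℝ) : ℂ))) ^ r1 * (-1) ^ r2 * (Complex.I ^ r1 * (-1) ^ r2) =
          (-(Complex.I * Complex.I)) ^ r1 * ((-1) * (-1)) ^ r2 * ((Real.sqrt 3 : ℝ) : ℂ) ^ r1 := by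
        rw [neg_pow, neg_pow (Complex.I * Complex.I), mul_pow, mul_pow, mul_pow]
        ring
      rw [e2, Complex.I_mul_I]
      norm_num
    rw [e1]
    push_cast at h ⊢
    rw [div_pow, div_pow, mul_pow, mul_pow] at h
    field_simp at h ⊢
    rw [pow_add (((Real.sqrt 3 : ℝ) : ℂ)) r1 r2]
    linear_combination (((Real.sqrt 3 : ℝ) : ℂ) ^ r1) * h

variable [DD] [HC]

theorem rat_K (hg : ∀ M : ℕ, 0 < M → (HC.f : 𝓞 K) ∣ (M : 𝓞 K) →
      ((6 * DD.D : ℤ) : 𝓞 K) ∣ (M : 𝓞 K) → GalPs M)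
    {F : Type u} [Field F] [NumberField F] [Algebra K F] (h : Nice F) (hf : Free6 DD.D)
    (W : WeierstrassCurve F) (C : VariableChange F) (hC : C • W = crv ((DD.D : ℤ) : F)) :
    ∃ (g : ℂ → ℂ) (q : ℚ), Differentiable ℂ g ∧ (∀ s : ℂ, 2 < s.re → g s = W.LSeries s) ∧
      g 1 * (Real.sqrt |(discr F : ℝ)| : ℝ) =
        (q : ℂ) * (∏ v : InfinitePlace F, perAt W v : ℝ) := by
  have hex := nf_exists (F := F)
  obtain ⟨m, hm⟩ : ∃ m, Module.finrank K F = m + 1 :=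
    Nat.exists_eq_succ_of_ne_zero Module.finrank_pos.ne'
  rw [hm] at hex
  obtain ⟨σ, hσ⟩ := hex
  set bb : Module.Basis (Fin (m + 1)) K F := Module.finBasisOfFinrankEq K F hm
  obtain ⟨a, δ, ha, ha6, hδ, hδn, hcase⟩ := Fin_delta
  obtain ⟨L, κ, hL, hL1, hLv⟩ := lval hg σ hσ hδ bb
  obtain ⟨q0, hq0, hdisc⟩ := Rq.disc_K σ hσ bb
  obtain ⟨q1, hq1⟩ := Rq.normSq_rat κ
  have hfr : Module.finrank ℚ F = 2 * (m + 1) := by
    rw [← Module.finrank_mul_finrank ℚ K F, S4.u4_finrank, hm]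
  set g : ℂ → ℂ := fun s => (starRingEnd ℂ) (L ((starRingEnd ℂ) s)) * L s with hgdef
  have hgs : ∀ s : ℂ, 2 < s.re → g s = W.LSeries s := by
    intro s hs
    change (starRingEnd ℂ) (L ((starRingEnd ℂ) s)) * L s = _
    rw [LSeries_K h hf W C hC s (by linarith), hL1 s hs, hL1 _ (by rw [Complex.conj_re]; exact hs),
      ← LF.Lf_conj]
  have hg1 : g 1 = ((‖L 1‖ ^ 2 : ℝ) : ℂ) := by
    change (starRingEnd ℂ) (L ((starRingEnd ℂ) 1)) * L 1 = _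
    rw [map_one, mul_comm, Complex.mul_conj, Complex.normSq_eq_norm_sq]
  have hcx : InfinitePlace.nrComplexPlaces F = m + 1 ∧ Fintype.card (InfinitePlace F) = m + 1 := by
    have h1 := InfinitePlace.card_eq_nrRealPlaces_add_nrComplexPlaces F
    have h2 := InfinitePlace.card_add_two_mul_card_eq_rank F
    have h3 : IsTotallyComplex F := S4.totallyComplex_of_K
    have h4 : InfinitePlace.nrRealPlaces F = 0 := IsTotallyComplex.nrRealPlaces_eq_zero F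
    omega
  have hs3 : 0 < Real.sqrt 3 := Real.sqrt_pos.2 (by norm_num)
  have hprod : ∏ v : InfinitePlace F, perAt (crv ((DD.D : ℤ) : F)) v =
      Real.sqrt 3 ^ (m + 1) * (‖Om‖ / (2 * a)) ^ (2 * (m + 1)) := by
    rcases hcase with ⟨hD, _⟩ | ⟨hD, _⟩
    · rw [prod_crv_pos hD ha ha6, hcx.2, hfr]
    · rw [prod_crv_neg hD ha ha6, hcx.1, hfr]
  obtain ⟨q2, hq20, hq2⟩ := Fin_ratio (DD.D) (Or.inl rfl) W C hC
  obtain ⟨D', hD'⟩ : ∃ z : ℤ, z = |discr F| := ⟨_, rfl⟩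
  refine ⟨g, q1 * q0 * (D' : ℚ) / 3 ^ (m + 1) * 2 ^ (2 * (m + 1)) * q2,
    (S4.differentiable_conj_conj hL).mul hL, hgs, ?_⟩
  have key : ‖L 1‖ ^ 2 * Real.sqrt |(discr F : ℝ)| =
      (q1 * q0 * (D' : ℝ) / 3 ^ (m + 1)) *
        (Real.sqrt 3 ^ (m + 1) * (‖Om‖ / a) ^ (2 * (m + 1))) := by
    rw [hD', Int.cast_abs]
    have h33 : (3 : ℝ) ^ (m + 1) = Real.sqrt 3 ^ (m + 1) * Real.sqrt 3 ^ (m + 1) := by
      rw [← mul_pow, Real.mul_self_sqrt (by norm_num)]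
    have hD : |(discr F : ℝ)| = Real.sqrt |(discr F : ℝ)| * Real.sqrt |(discr F : ℝ)| :=
      (Real.mul_self_sqrt (abs_nonneg _)).symm
    have hLn : ‖L 1‖ ^ 2 = (‖Om‖ / a) ^ (2 * (m + 1)) * ‖Rq.dt σ bb‖ ^ 2 * q1 := by
      rw [hLv, norm_mul, norm_mul, norm_pow, norm_div, hδn, hq1]
      ring
    rw [hLn, h33]
    have h3 : Real.sqrt 3 ^ (m + 1) ≠ 0 := (pow_pos hs3 _).ne'
    obtain ⟨r, hr⟩ : ∃ r : ℝ, r = Real.sqrt |(discr F : ℝ)| := ⟨_, rfl⟩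
    obtain ⟨t, ht⟩ : ∃ t : ℝ, t = (‖Om‖ / a) ^ (2 * (m + 1)) := ⟨_, rfl⟩
    rw [← hr, ← ht]
    rw [← hr] at hdisc
    have hD2 : |(discr F : ℝ)| = r * r := by
      rw [hr]
      exact hD
    rw [hD2]
    field_simp
    linear_combination (t * q1 * r) * hdisc
  have hP : (‖Om‖ / a) ^ (2 * (m + 1)) =
      2 ^ (2 * (m + 1)) * (‖Om‖ / (2 * a)) ^ (2 * (m + 1)) := by
    rw [← mul_pow]
    congr 1
    field_simp
  have hfin : ‖L 1‖ ^ 2 * Real.sqrt |(discr F : ℝ)| =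
      (q1 * q0 * (D' : ℝ) / 3 ^ (m + 1) * 2 ^ (2 * (m + 1)) * q2) *
        ∏ v : InfinitePlace F, perAt W v := by
    rw [key, hP]
    rw [hprod] at hq2
    linear_combination (q1 * q0 * (D' : ℝ) / 3 ^ (m + 1) * 2 ^ (2 * (m + 1))) * hq2
  rw [hg1, ← Complex.ofReal_mul, hfin]
  push_cast
  ring

theorem rat_N (hg : ∀ M : ℕ, 0 < M → (HC.f : 𝓞 K) ∣ (M : 𝓞 K) →
      ((6 * DD.D : ℤ) : 𝓞 K) ∣ (M : 𝓞 K) → GalPs M)
    {N F : Type u} [Field N] [NumberField N] [Field F] [NumberField F]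
    [Algebra N F] [Algebra K F] (hL : Module.finrank N F = 2)
    (hn : ∀ x : N, algebraMap N F x ≠ algebraMap K F om) (h : Nice N) (hf : Free6 DD.D) (d : ℤ)
    (hd : d = DD.D ∨ d = -27 * DD.D)
    (W : WeierstrassCurve N) (C : VariableChange N) (hC : C • W = crv (d : N)) :
    ∃ (g : ℂ → ℂ) (q : ℚ), Differentiable ℂ g ∧ (∀ s : ℂ, 2 < s.re → g s = W.LSeries s) ∧
      g 1 * (Real.sqrt |(discr N : ℝ)| : ℝ) =
        (q : ℂ) * (∏ v : InfinitePlace N, perAt W v : ℝ) := by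
  have hex := nf_exists (F := F)
  obtain ⟨m, hm⟩ : ∃ m, Module.finrank K F = m + 1 :=
    Nat.exists_eq_succ_of_ne_zero Module.finrank_pos.ne'
  rw [hm] at hex
  obtain ⟨σ, hσ⟩ := hex
  obtain ⟨bb, q, hq0, hdq⟩ := Rq.disc_N hL hn σ hσ
  obtain ⟨a, δ, ha, ha6, hδ, hδn, hcase⟩ := Fin_delta
  obtain ⟨L, κ, hL', hL1, hLv⟩ := lval hg σ hσ hδ bb
  have hfrN : Module.finrank ℚ N = m + 1 := by
    have h1 := Module.finrank_mul_finrank ℚ N F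
    have h2 := Module.finrank_mul_finrank ℚ K F
    rw [hL] at h1
    rw [S4.u4_finrank, hm] at h2
    omega
  have hgs : ∀ s : ℂ, 2 < s.re → L s = W.LSeries s := fun s hs => by
    rw [hL1 s hs, LSeries_N hL hn h hf d hd W C hC s (by linarith)]
  have hre := Per.value_real hL' hgs
  obtain ⟨q2, hq20, hq2⟩ := Fin_ratio d hd W C hC
  obtain ⟨P, hP⟩ : ∃ P : ℝ, P = ∏ v : InfinitePlace N, perAt W v := ⟨_, rfl⟩
  obtain ⟨P0, hP0⟩ : ∃ P0 : ℝ, P0 = ∏ v : InfinitePlace N, perAt (crv ((DD.D : ℤ) : N)) v := ⟨_, rfl⟩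
  have hP0' : P0 ≠ 0 := by
    have hOm : 0 < ‖Om‖ := norm_pos_iff.2 Om_ne_zero
    rw [hP0]
    rcases hcase with ⟨hD, _⟩ | ⟨hD, _⟩
    · rw [prod_crv_pos hD ha ha6]
      positivity
    · rw [prod_crv_neg hD ha ha6]
      positivity
  rw [← hP, ← hP0] at hq2
  have hq2' : (q2 : ℝ) ≠ 0 := by exact_mod_cast hq20
  obtain ⟨R, hR⟩ : ∃ R : ℝ, R = (L 1).re * Real.sqrt |(discr N : ℝ)| / P0 := ⟨_, rfl⟩
  have hRP : L 1 * ((Real.sqrt |(discr N : ℝ)| : ℝ) : ℂ) = (R : ℂ) * ((P0 : ℝ) : ℂ) := by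
    rw [← Complex.ofReal_mul, hR, div_mul_cancel₀ _ hP0']
    push_cast
    rw [← hre]
  obtain ⟨r, hr⟩ := Fin_arith (N := N) ha ha6 hcase κ (Rq.dt σ bb) q hdq R (by
    rw [← hP0, ← hRP, hLv, hfrN])
  refine ⟨L, r * q2, hL', hgs, ?_⟩
  rw [← hP, hRP, hq2, ← hr]
  push_cast
  ring

end Pool.Agent.Lib.MP_1a91b9_ntX.RG
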