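import Pool.Agent.Lib.MP_1a91b9_ntX.RG.Defs

/-!
# The action of the automorphisms of `ℂ` over `K` on the torsion of `y² + y = x³` and on the values of `E₁`

Proof. As `exists_act` in MP_1a91b9_ntT/Rg/Act.lean (read its proof; its auxiliary theorems `relSub_top`, `rel_unique`, `rel_exists` (Rq), `defect_zero`, `embK_dvd`, `mem_PP_iff`, .. are public).
(1) For every `M > 0` there is `χ` with `RlM τ M χ`, `IsCoprime χ M` and the formula for `E₁` (for all `M`; the divisibility of `M` by `3` is used in `exists_act` only for `3 ∣ χ - 1`): `w` with `Rel τ (1 / M) w`, `w = χ / M`.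
(2) `RlM τ (M₁ * M) χ → RlM τ M χ` and the same for the formula of `E₁`: put `a := M₁ a'`.
(3) If `RlM τ M χ` and `RlM τ M χ'` then `M ∣ χ - χ'` (`rel_unique` for `a = 1`, `embK_dvd`).
Let `χ₀` be given by (1) for `M₀`. For `M`, take `χ` by (1) for `M₀ * M`: by (2) `RlM τ M₀ χ`, by (3) `M₀ ∣ χ - χ₀`, and `χ` is coprime to `M` and has the formula for `M`.
-/

set_option autoImplicit false

namespace Pool.Agent.Lib.MP_1a91b9_ntX.RG

open NumberField Pool.Agent.Lib.MP_1a91b9_ntT Pool.Agent.Lib.MP_1a91b9_ntT.S3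
open Pool.Agent.Lib.MP_1a91b9_ntT.Rq Pool.Agent.Lib.MP_1a91b9_ntT.Rg

private theorem Act_one {τ : ℂ ≃+* ℂ} (hτ : Fix τ) (M : ℕ) (hM : 0 < M) :
    ∃ χ : 𝓞 K, IsCoprime χ (M : 𝓞 K) ∧ RlM τ M χ ∧
      ∀ a : 𝓞 K, τ (E1 (embK (a : K) / M) / Om) = E1 (embK (χ : K) * embK (a : K) / M) / Om := by
  have hM0 : (M : ℂ) ≠ 0 := by
    exact_mod_cast hM.ne'
  obtain ⟨w, hw⟩ : ∃ w, Rel τ (1 / M) w := by
    by_cases h : (1 / M : ℂ) ∈ PP.lattice
    · exact ⟨0, Or.inl ⟨h, zero_mem _⟩⟩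
    · exact rel_exists τ h
  have hMw : (M : ℂ) * w ∈ PP.lattice := by
    have h1 := Rg.relSub_top hτ hM hw (nat_mem M)
    rw [div_self hM0] at h1
    rcases h1 with ⟨-, h1⟩ | ⟨h1, -⟩
    · exact h1
    · exact absurd one_mem h1
  obtain ⟨χ, hχ⟩ := mem_PP_iff.1 hMw
  have hw' : w = embK (χ : K) / M := by
    rw [hχ]
    field_simp
  have hrel : ∀ a : 𝓞 K, Rel τ (embK (a : K) / M) (embK (χ : K) * embK (a : K) / M) := by
    intro a
    have h1 := Rg.relSub_top hτ hM hw (embK_mem a)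
    rw [hw'] at h1
    have e : embK (a : K) * (embK (χ : K) / M) = embK (χ : K) * embK (a : K) / M := by ring
    rwa [e] at h1
  refine ⟨χ, ?_, hrel, ?_⟩
  · -- multiplication by `χ` is injective modulo `M`
    have hinj : ∀ a : 𝓞 K, (M : 𝓞 K) ∣ χ * a → (M : 𝓞 K) ∣ a := by
      rintro a ⟨y, hy⟩
      have h1 : embK (χ : K) * embK (a : K) / M ∈ PP.lattice := by
        have e : embK (χ : K) * embK (a : K) = M * embK (y : K) := by
          have h2 := congrArg (fun x : 𝓞 K => embK (x : K)) hy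
          have e1 : ((χ * a : 𝓞 K) : K) = (χ : K) * (a : K) := by push_cast; rfl
          have e2 : (((M : 𝓞 K) * y : 𝓞 K) : K) = (M : K) * (y : K) := by push_cast; rfl
          simp only [e1, e2, map_mul, map_natCast] at h2
          exact h2
        rw [e, mul_div_cancel_left₀ _ hM0]
        exact embK_mem y
      rcases hrel a with ⟨h2, -⟩ | ⟨-, h2, -⟩
      · exact embK_dvd hM h2
      · exact absurd h1 h2
    have hfin : Finite (𝓞 K ⧸ Ideal.span {(M : 𝓞 K)}) :=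
      Ideal.finiteQuotientOfFreeOfNeBot _ (by
        rw [Ne, Ideal.span_singleton_eq_bot]
        intro h
        have : (M : 𝓞 K) ≠ 0 := by
          exact_mod_cast hM.ne'
        exact this h)
    have hinj2 : Function.Injective
        (fun x : 𝓞 K ⧸ Ideal.span {(M : 𝓞 K)} => Ideal.Quotient.mk _ χ * x) := by
      intro x y hxy
      obtain ⟨a, rfl⟩ := Ideal.Quotient.mk_surjective x
      obtain ⟨b, rfl⟩ := Ideal.Quotient.mk_surjective y
      simp only at hxy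
      rw [← map_mul, ← map_mul, Ideal.Quotient.eq, Ideal.mem_span_singleton, ← mul_sub] at hxy
      rw [Ideal.Quotient.eq, Ideal.mem_span_singleton]
      exact hinj _ hxy
    obtain ⟨x, hx⟩ := (Finite.injective_iff_surjective.1 hinj2) 1
    obtain ⟨a, rfl⟩ := Ideal.Quotient.mk_surjective x
    simp only at hx
    rw [← map_mul, ← map_one (Ideal.Quotient.mk _), Ideal.Quotient.eq,
      Ideal.mem_span_singleton] at hx
    obtain ⟨y, hy⟩ := hx
    exact ⟨a, -y, by linear_combination hy⟩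
  · intro a
    have h1 := Rg.defect_zero hτ hM hw ⟨embK (a : K), embK_mem a⟩
    rw [hw'] at h1
    have e : embK (a : K) * (embK (χ : K) / M) = embK (χ : K) * embK (a : K) / M := by ring
    rw [← e]
    exact h1

private theorem Act_scale {M₁ M : ℕ} (hM₁ : 0 < M₁) (a : 𝓞 K) :
    embK ((((M₁ : 𝓞 K) * a : 𝓞 K)) : K) / ((M₁ * M : ℕ) : ℂ) = embK (a : K) / (M : ℂ) := by
  have h0 : (M₁ : ℂ) ≠ 0 := by exact_mod_cast hM₁.ne'
  have e2 : (((M₁ : 𝓞 K) * a : 𝓞 K) : K) = (M₁ : K) * (a : K) := by push_cast; rfl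
  rw [e2, map_mul, map_natCast]
  push_cast
  rw [mul_div_mul_left _ _ h0]

private theorem Act_down {τ : ℂ ≃+* ℂ} {M₁ M : ℕ} (hM₁ : 0 < M₁) {χ : 𝓞 K}
    (h : RlM τ (M₁ * M) χ) : RlM τ M χ := by
  intro a
  have h1 := h ((M₁ : 𝓞 K) * a)
  rw [mul_div_assoc, Act_scale hM₁ a] at h1
  rw [mul_div_assoc]
  exact h1

private theorem Act_congr {τ : ℂ ≃+* ℂ} {M : ℕ} (hM : 0 < M) {χ χ' : 𝓞 K}
    (h : RlM τ M χ) (h' : RlM τ M χ') : (M : 𝓞 K) ∣ χ' - χ := by
  have h1 := Rg.rel_unique (h 1) (h' 1)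
  refine embK_dvd hM ?_
  have e3 : embK ((χ' - χ : 𝓞 K) : K) / (M : ℂ) =
      embK (χ' : K) * embK ((1 : 𝓞 K) : K) / M - embK (χ : K) * embK ((1 : 𝓞 K) : K) / M := by
    have e1 : ((χ' - χ : 𝓞 K) : K) = (χ' : K) - χ := by push_cast; rfl
    have e2 : (((1 : 𝓞 K) : 𝓞 K) : K) = 1 := by push_cast; rfl
    rw [e1, e2, map_sub, map_one]
    ring
  rw [e3]
  exact h1

theorem exists_act2 {τ : ℂ ≃+* ℂ} (hτ : Fix τ) (M₀ : ℕ) (hM₀ : 0 < M₀) :
    ∃ χ₀ : 𝓞 K, IsCoprime χ₀ (M₀ : 𝓞 K) ∧ RlM τ M₀ χ₀ ∧ Hact τ (M₀ : 𝓞 K) χ₀ := by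
  obtain ⟨χ₀, hc₀, hr₀, -⟩ := Act_one hτ M₀ hM₀
  refine ⟨χ₀, hc₀, hr₀, ?_⟩
  intro M hM
  obtain ⟨χ, hc, hr, hE⟩ := Act_one hτ (M₀ * M) (Nat.mul_pos hM₀ hM)
  refine ⟨χ, ?_, ?_, ?_⟩
  · apply Act_congr hM₀ hr₀
    rw [mul_comm] at hr
    exact Act_down hM hr
  · rw [Nat.cast_mul] at hc
    exact hc.of_mul_right_right
  · intro a
    have h1 := hE ((M₀ : 𝓞 K) * a)
    rw [mul_div_assoc, Act_scale hM₀ a] at h1
    rw [mul_div_assoc]
    exact h1

end Pool.Agent.Lib.MP_1a91b9_ntX.RG
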