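import Pool.Agent.Lib.MP_1a91b9_ntX.RG.Defs

/-!
# Complete systems of pairs of an ideal and a residue class

Proof. `exists_csys`: this is `unfold_index` in MP_1a91b9_ntT/S4/Unfold.lean, all the fields of `CSys m b t` are contained in it (`tcop`: `J i * b i = span {t i}`, both prime to `m`; `cop`, and the statement for `c`, from `IsCoprime (b i) (c * m)`; `ray`: forget `RayEq`).
`CSys.smul`: `X` prime to `m`, `X ≠ 0`. Fields: `X t i ∉ m b i`: there is `Y` with `X Y - 1 ∈ m` (`IsCoprime (span {X}) m`); if `X t ∈ m b` then `X Y t = t + (X Y - 1) t ∈ m b` gives `t ∈ m b`. We may take `Y ≠ 0` (if `Y = 0` then `1 ∈ m`, `m = ⊤`, contradiction to `hm1 : m ≠ 1`) and `Y` is prime to `m`.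
`ray` for `R'` with `IsRep m (b i) (X t i) (R' i)`: take any `R` with `IsRep m (b i) (t i) (R i)` (`exists_isRep`, used in `unfold_K` of MP_1a91b9_ntT/Rg/Un.lean) and its `e`.
Claim 1: for `I` prime to `m` there are `i` and `r ∈ R' i` with `I * b i = span {r}`. Proof: `span {Y} * I` is prime to `m`, `= e (i, r₀)`, so `span {Y} * I * b i = span {r₀}`, `r₀ - t i ∈ m b i`; `r₀ ∈ span {Y} * (I b i)`, so `r₀ = Y r₁` with `r₁ ∈ I b i`, `I b i = span {r₁}` (cancel `span {Y} ≠ 0`),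
`r₁ - X t i = X (Y r₁ - t i) - (X Y - 1) r₁ ∈ m b i` (`r₁ ∈ b i`). By `IsRep.ex` for `R' i`: `r₁ = u r`, `r ∈ R' i`, `span {r} = span {r₁}`.
Claim 2: if `I * b i = span {r}`, `I * b j = span {r'}`, `r ∈ R' i`, `r' ∈ R' j`, `I` prime to `m`, then `i = j` and `r = r'`. Proof: `Y r - t i = Y (r - X t i) + (X Y - 1) t i ∈ m b i`, so `Y r = u s`, `s ∈ R i`, `u - 1 ∈ m`; `e (i, s) * b i = span {s} = span {Y} * I * b i`, so `e (i, s) = span {Y} * I`; the same for `j`, `Y r' = u' s'`;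
injectivity of `e`: `(i, s) = (j, s')`; so `i = j` and `Y r' = u' u⁻¹ Y r`, `r' = u' u⁻¹ r`, `u' u⁻¹ - 1 ∈ m`, and `IsRep.uniq` gives `r = r'`.
For the pair `x = (i, r)`, `r ∈ R' i`: there is an ideal `I` prime to `m` with `I * b i = span {r}`: `Y r = u s` as in Claim 2, `span {Y r} = e (i, s) * b i`; `b i ∣ span {r}` since `r ∈ b i` (`Ideal.dvd_span_singleton`), `span {r} = I * b i`; `span {Y} * I = e (i, s)` is prime to `m`, so `I` is. Define `e' x` as this `I` (choose).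
-/

set_option autoImplicit false

namespace Pool.Agent.Lib.MP_1a91b9_ntX.RG

open NumberField IsDedekindDomain Pool.Agent.Lib.MP_1a91b9_ntT Pool.Agent.Lib.MP_1a91b9_ntT.S4

universe u

variable {F : Type u} [Field F] [NumberField F]

theorem exists_csys (m c : Ideal (𝓞 F)) (hm0 : m ≠ 0) (hm1 : m ≠ 1) (hc0 : c ≠ 0) :
    ∃ (ι : Type u) (_ : Fintype ι) (b : ι → Ideal (𝓞 F)) (t : ι → 𝓞 F), CSys m b t ∧
      ∀ i, IsCoprime (b i) c := by
  obtain ⟨ι, hι, b, t, J, h1, h2⟩ := unfold_index m c hm0 hm1 hc0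
  refine ⟨ι, hι, b, t, ?_, fun i => (h1 i).2.1.of_mul_right_left⟩
  refine
    { ne := fun i => (h1 i).1
      cop := fun i => (h1 i).2.1.of_mul_right_right
      mem := fun i => (h1 i).2.2.1
      notMem := fun i => (h1 i).2.2.2.1
      tne := fun i => (h1 i).2.2.2.2.1
      tcop := ?_
      ray := ?_ }
  · intro i
    rw [← (h1 i).2.2.2.2.2.1]
    exact (h1 i).2.2.2.2.2.2.mul_left (h1 i).2.1.of_mul_right_right
  · intro R hR
    obtain ⟨e, he1, he2, he3⟩ := h2 R hR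
    exact ⟨e, he1, fun x => ⟨(he2 x).1, (he2 x).2.1⟩, he3⟩

omit [NumberField F] in
private theorem Cls_isRep (m b : Ideal (𝓞 F)) (t : 𝓞 F) : ∃ R : Set (𝓞 F), IsRep m b t R := by
  classical
  let S : Setoid {z : 𝓞 F // z - t ∈ m * b} :=
    { r := fun z z' => ∃ u : (𝓞 F)ˣ, (u : 𝓞 F) - 1 ∈ m ∧ z'.1 = u * z.1
      iseqv := by
        refine ⟨fun z => ⟨1, by simp, by simp⟩, ?_, ?_⟩
        · rintro z z' ⟨u, hu, hz⟩
          have huu : ((u⁻¹ : (𝓞 F)ˣ) : 𝓞 F) * u = 1 := Units.inv_mul u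
          refine ⟨u⁻¹, ?_, ?_⟩
          · have e : ((u⁻¹ : (𝓞 F)ˣ) : 𝓞 F) - 1 = -(((u⁻¹ : (𝓞 F)ˣ) : 𝓞 F) * (u - 1)) := by
              linear_combination huu
            rw [e]
            exact Ideal.neg_mem_iff _ |>.mpr (Ideal.mul_mem_left _ _ hu)
          · rw [hz]
            linear_combination (-z.1) * huu
        · rintro z z' z'' ⟨u, hu, hz⟩ ⟨u', hu', hz'⟩
          refine ⟨u' * u, ?_, ?_⟩
          · have e : ((u' * u : (𝓞 F)ˣ) : 𝓞 F) - 1 = u' * (u - 1) + (u' - 1) := by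
              push_cast
              ring
            rw [e]
            exact Ideal.add_mem _ (Ideal.mul_mem_left _ _ hu) hu'
          · rw [hz', hz]
            push_cast
            ring }
  refine ⟨Set.range fun q : Quotient S => (Quotient.out q).1, ?_, ?_, ?_⟩
  · rintro _ ⟨q, rfl⟩
    exact (Quotient.out q).2
  · intro z hz
    let q : Quotient S := Quotient.mk S ⟨z, hz⟩
    have hrel : S (Quotient.out q) ⟨z, hz⟩ := Quotient.exact (Quotient.out_eq q)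
    obtain ⟨u, hu, hzu⟩ := hrel
    exact ⟨u, hu, _, ⟨q, rfl⟩, hzu⟩
  · rintro _ ⟨q, rfl⟩ _ ⟨q', rfl⟩ u hu h
    have hrel : S (Quotient.out q) (Quotient.out q') := ⟨u, hu, h⟩
    have h1 := Quotient.sound hrel
    rw [Quotient.out_eq, Quotient.out_eq] at h1
    rw [h1]

omit [NumberField F] in
private theorem Cls_inv {m : Ideal (𝓞 F)} {X : 𝓞 F} (hX : IsCoprime (Ideal.span {X}) m) :
    ∃ Y : 𝓞 F, X * Y - 1 ∈ m := by
  rw [Ideal.isCoprime_iff_exists] at hX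
  obtain ⟨i, hi, j, hj, hij⟩ := hX
  obtain ⟨Y, hY⟩ := Ideal.mem_span_singleton'.mp hi
  refine ⟨Y, ?_⟩
  have e : X * Y - 1 = -j := by
    rw [← hij, ← hY]
    ring
  rw [e]
  exact (Ideal.neg_mem_iff m).mpr hj

theorem CSys.smul {m : Ideal (𝓞 F)} (hm1 : m ≠ 1) {ι : Type u} {b : ι → Ideal (𝓞 F)}
    {t : ι → 𝓞 F} (h : CSys m b t) {X : 𝓞 F} (hX : IsCoprime (Ideal.span {X}) m) (hX0 : X ≠ 0) :
    CSys m b (fun i => X * t i) := by
  obtain ⟨Y, hXY⟩ := Cls_inv hX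
  have hY0 : Y ≠ 0 := by
    intro h0
    rw [h0, mul_zero, zero_sub] at hXY
    apply hm1
    rw [Ideal.one_eq_top, Ideal.eq_top_iff_one]
    have := (Ideal.neg_mem_iff m).mpr hXY
    rwa [neg_neg] at this
  have hYc : IsCoprime (Ideal.span {Y}) m := by
    rw [Ideal.isCoprime_iff_exists]
    refine ⟨X * Y, Ideal.mul_mem_left _ _ (Ideal.mem_span_singleton_self Y), -(X * Y - 1),
      (Ideal.neg_mem_iff m).mpr hXY, by ring⟩
  refine
    { ne := h.ne
      cop := h.cop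
      mem := fun i => Ideal.mul_mem_left _ _ (h.mem i)
      notMem := ?_
      tne := fun i => mul_ne_zero hX0 (h.tne i)
      tcop := ?_
      ray := ?_ }
  · intro i hi
    apply h.notMem i
    have h1 : (X * Y - 1) * t i ∈ m * b i := Ideal.mul_mem_mul hXY (h.mem i)
    have h2 : Y * (X * t i) ∈ m * b i := Ideal.mul_mem_left _ _ hi
    have e : t i = Y * (X * t i) - (X * Y - 1) * t i := by ring
    rw [e]
    exact Ideal.sub_mem _ h2 h1
  · intro i
    rw [← Ideal.span_singleton_mul_span_singleton]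
    exact hX.mul_left (h.tcop i)
  · intro R' h'
    choose R hR using fun i => Cls_isRep m (b i) (t i)
    obtain ⟨e, hinj, he, hsurj⟩ := h.ray R hR
    have key : ∀ x : (Σ i, R' i), ∃ (I : Ideal (𝓞 F)) (s : 𝓞 F) (hs : s ∈ R x.1) (u : (𝓞 F)ˣ),
        (u : 𝓞 F) - 1 ∈ m ∧ Y * (x.2 : 𝓞 F) = u * s ∧ I * b x.1 = Ideal.span {(x.2 : 𝓞 F)} ∧
        Ideal.span {Y} * I = e ⟨x.1, ⟨s, hs⟩⟩ ∧ IsCoprime I m := by
      rintro ⟨i, r, hr⟩
      have hrm : r - X * t i ∈ m * b i := (h' i).mem r hr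
      have h1 : Y * r - t i ∈ m * b i := by
        have e1 : Y * r - t i = Y * (r - X * t i) + (X * Y - 1) * t i := by ring
        rw [e1]
        exact Ideal.add_mem _ (Ideal.mul_mem_left _ _ hrm) (Ideal.mul_mem_mul hXY (h.mem i))
      obtain ⟨u, hu, s, hs, hYr⟩ := (hR i).ex _ h1
      have hrb : r ∈ b i := by
        have e2 : r = (r - X * t i) + X * t i := by ring
        rw [e2]
        exact Ideal.add_mem _ (Ideal.mul_le_right hrm) (Ideal.mul_mem_left _ _ (h.mem i))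
      obtain ⟨I, hI⟩ := Ideal.dvd_span_singleton.mpr hrb
      have hI' : I * b i = Ideal.span {r} := by rw [hI, mul_comm]
      have hes : e ⟨i, ⟨s, hs⟩⟩ * b i = Ideal.span {s} := (he ⟨i, ⟨s, hs⟩⟩).2
      have hsp : Ideal.span {Y * r} = Ideal.span {s} := by
        rw [Ideal.span_singleton_eq_span_singleton]
        refine ⟨u⁻¹, ?_⟩
        have h7 : ((u⁻¹ : (𝓞 F)ˣ) : 𝓞 F) * u = 1 := Units.inv_mul u
        rw [hYr]
        linear_combination s * h7
      have hYI : Ideal.span {Y} * I = e ⟨i, ⟨s, hs⟩⟩ := by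
        apply mul_right_cancel₀ (h.ne i)
        rw [hes, ← hsp, mul_assoc, hI', Ideal.span_singleton_mul_span_singleton]
      refine ⟨I, s, hs, u, hu, hYr, hI', hYI, ?_⟩
      have h8 : IsCoprime (Ideal.span {Y} * I) m := by
        rw [hYI]
        exact (he _).1
      exact h8.of_mul_left_right
    choose e' s hs u hu hYr hI heI hIm using key
    refine ⟨e', ?_, fun x => ⟨hIm x, hI x⟩, ?_⟩
    · rintro ⟨i, r, hr⟩ ⟨j, r', hr'⟩ hee
      have h3 : (⟨i, ⟨s ⟨i, ⟨r, hr⟩⟩, hs ⟨i, ⟨r, hr⟩⟩⟩⟩ : Σ i, R i) =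
          ⟨j, ⟨s ⟨j, ⟨r', hr'⟩⟩, hs ⟨j, ⟨r', hr'⟩⟩⟩⟩ := by
        apply hinj
        have e1 := heI ⟨i, ⟨r, hr⟩⟩
        have e2 := heI ⟨j, ⟨r', hr'⟩⟩
        rw [hee] at e1
        exact e1.symm.trans e2
      have hij : i = j := congrArg Sigma.fst h3
      subst hij
      have h4 := eq_of_heq (Sigma.mk.inj h3).2
      have hss : s ⟨i, ⟨r, hr⟩⟩ = s ⟨i, ⟨r', hr'⟩⟩ := congrArg Subtype.val h4
      have h5 : Y * r = u ⟨i, ⟨r, hr⟩⟩ * s ⟨i, ⟨r, hr⟩⟩ := hYr ⟨i, ⟨r, hr⟩⟩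
      have h6 : Y * r' = u ⟨i, ⟨r', hr'⟩⟩ * s ⟨i, ⟨r', hr'⟩⟩ := hYr ⟨i, ⟨r', hr'⟩⟩
      rw [← hss] at h6
      have hu1 := hu ⟨i, ⟨r, hr⟩⟩
      have hu2 := hu ⟨i, ⟨r', hr'⟩⟩
      generalize u ⟨i, ⟨r, hr⟩⟩ = v at h5 hu1
      generalize u ⟨i, ⟨r', hr'⟩⟩ = v' at h6 hu2
      generalize s ⟨i, ⟨r, hr⟩⟩ = w at h5 h6
      have h7 : ((v⁻¹ : (𝓞 F)ˣ) : 𝓞 F) * v = 1 := Units.inv_mul v
      have hrr : r = r' := by
        refine (h' i).uniq r hr r' hr' (v' * v⁻¹) ?_ ?_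
        · have e3 : ((v' * v⁻¹ : (𝓞 F)ˣ) : 𝓞 F) - 1 =
              ((v⁻¹ : (𝓞 F)ˣ) : 𝓞 F) * (((v' : 𝓞 F) - 1) - ((v : 𝓞 F) - 1)) := by
            push_cast
            linear_combination h7
          rw [e3]
          exact Ideal.mul_mem_left _ _ (Ideal.sub_mem _ hu2 hu1)
        · apply mul_left_cancel₀ hY0
          push_cast
          rw [h6]
          linear_combination (-(v' : 𝓞 F) * ((v⁻¹ : (𝓞 F)ˣ) : 𝓞 F)) * h5 - (v' : 𝓞 F) * w * h7
      subst hrr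
      rfl
    · intro I hIc
      obtain ⟨⟨i, r0, hr0⟩, hx⟩ := hsurj (Ideal.span {Y} * I) (hYc.mul_left hIc)
      have h1 : Ideal.span {Y} * (I * b i) = Ideal.span {r0} := by
        rw [← mul_assoc, ← hx]
        exact (he ⟨i, ⟨r0, hr0⟩⟩).2
      have h2 : r0 ∈ Ideal.span {Y} * (I * b i) := by
        rw [h1]
        exact Ideal.mem_span_singleton_self r0
      obtain ⟨r1, hr1, hYr1⟩ := Ideal.mem_span_singleton_mul.mp h2
      have hsY : Ideal.span {Y} ≠ 0 := by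
        intro h0
        exact hY0 (Ideal.span_singleton_eq_bot.mp h0)
      have h3 : I * b i = Ideal.span {r1} := by
        apply mul_left_cancel₀ hsY
        rw [h1, Ideal.span_singleton_mul_span_singleton, hYr1]
      have hr1b : r1 ∈ b i := Ideal.mul_le_right hr1
      have h4 : r1 - X * t i ∈ m * b i := by
        have h5 : r0 - t i ∈ m * b i := (hR i).mem r0 hr0
        rw [← hYr1] at h5
        have e1 : r1 - X * t i = X * (Y * r1 - t i) - (X * Y - 1) * r1 := by ring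
        rw [e1]
        exact Ideal.sub_mem _ (Ideal.mul_mem_left _ _ h5) (Ideal.mul_mem_mul hXY hr1b)
      obtain ⟨v, hv, r, hr, hvr⟩ := (h' i).ex _ h4
      refine ⟨⟨i, ⟨r, hr⟩⟩, ?_⟩
      have h6 : e' ⟨i, ⟨r, hr⟩⟩ * b i = Ideal.span {r} := hI ⟨i, ⟨r, hr⟩⟩
      have h7 : Ideal.span {r} = Ideal.span {r1} := by
        rw [Ideal.span_singleton_eq_span_singleton]
        refine ⟨v, ?_⟩
        rw [hvr, mul_comm]
      apply mul_right_cancel₀ (h.ne i)
      rw [h6, h7, h3]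

end Pool.Agent.Lib.MP_1a91b9_ntX.RG
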