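import Pool.Agent.Lib.MP_1a91b9_ntX.RG.Act
import Pool.Agent.Lib.MP_1a91b9_ntX.DB.Uni
import Pool.Agent.Lib.MP_1a91b9_ntX.DB.Tors
import Pool.Agent.Lib.MP_1a91b9_ntX.DB.Tor2
import Pool.Agent.Lib.MP_1a91b9_ntX.DX.Ex
import Pool.Agent.Lib.MP_1a91b9_ntX.AN.ESum

/-!
# The automorphisms of `ℂ` over `K`: the torsion of `y² + y = x³`, the sixth root `δ` and the Hecke character

Proof. `ℂ` is a `K`-algebra by `embK`; `τ` is a `K`-algebra automorphism `τ'` of `ℂ` (`hτ : τ zt = zt`, see `Rq.fx_K : τ (embK x) = embK x`).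
(1) `exists_uni_delta δ hδ` (DB/Uni): `U : ℂ →+ Pt ℂ` with `xc (U z) = 4 δ² X z`, `yc (U z) = 4 δ³ Y z` off the lattice, `U (embK a * z) = sm ℂ a (U z)`, kernel the lattice. `(τ δ)^6 = δ^6` (apply `τ` to `hδ`; `dD ℂ` is an integer), `δ ≠ 0` (`DD.ne`), so `embK ε * τ δ = δ` for a unit `ε` of `𝓞 K`
(`(δ / τ δ)^6 = 1`, and the sixth roots of unity of `ℂ` are `± zt^i = embK` of the units `± om^i`).
(2) `pm τ' (U (1 / M)) = U (embK ε * embK χ / M)`: if `1 / M` is in the lattice (`M = 1`) both are `0`. Otherwise by `hχ 1`: `X (χ / M) = τ (X (1 / M))`, `Y (χ / M) = τ (Y (1 / M))`, so the left side has coordinates `4 (τ δ)² X (χ / M)`, `4 (τ δ)³ Y (χ / M)` and the right side `4 δ² X (ε χ / M)`, `4 δ³ Y (ε χ / M)`;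
`X (ε z) = ε^{-2} X z`, `Y (ε z) = ε^{-3} Y z` for a unit `ε` (for `ε = -1` and `ε = zt`: `Rq.X_neg`, .. and the transformation of `X`, `Y` under `zt`: search `X_zt`, `X_om`, `Y_om` in MP_1a91b9_ntT/S3 and DB/Uni, `phi_omH`; or use `U (zt z) = omH ℂ (U z)` from DB/Uni and the definition of `omH`), and `δ = ε (τ δ)`.
So with `T₀ := U (1 / M)`: `pm τ' T₀ = sm ℂ (ε χ) T₀`. `DB.Ord M T₀` (`sm c T₀ = U (c / M) = 0` iff `c / M` in the lattice iff `M ∣ c`).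
(3) `T₀` is defined over a number field: there are a number field `L : Type`, Galois over `K`, `T : Pt L` with `DB.Ord M T` and an embedding `j : L →ₐ[K] ℂ` (take the coordinates of `T₀`, algebraic over `K`, in an intermediate field of `ℂ / K` which is finite and normal; or abstractly: search for the existence of a number field with a point of given annihilator, e.g.
`exists_div` in DX/Ex.lean, `exists_ord_C`, `IsAlgClosed.lift`). `pm j T` has annihilator `M` and is `= U (z)` with `M z` in the lattice, so `pm j T = sm ℂ a T₀` for some `a ∈ 𝓞 K`.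
`τ' ∘ j = j ∘ σ` for some `σ ∈ Gal(L/K)` (`L / K` normal: `AlgHom.restrictNormal`, or `Algebra.IsAlgebraic` + `IsGalois`: both are embeddings of `L` in `ℂ` over `K`). `hg L T .. σ`: `ga σ T = sm L c T`, `ps (span {c}) = c`. So `sm ℂ c (pm j T) = pm j (ga σ T) = pm τ' (pm j T) = pm τ' (sm ℂ a T₀) = sm ℂ a (sm ℂ (ε χ) T₀) = sm ℂ (ε χ) (pm j T)`,
hence `M ∣ ε χ - c` (`Ord` of `pm j T`).
(4) `Fx c`, `c` prime to `f` and `f ∣ M ∣ ε χ - c`: `Fx.congr` (AN/ESum) gives `Fx (ε χ)`: `ps (span {ε χ}) = ε χ`, and `span {ε χ} = span {χ}`. `u := ε`.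
-/

set_option autoImplicit false

namespace Pool.Agent.Lib.MP_1a91b9_ntX.RG

open NumberField Pool.Agent.Lib.MP_1a91b9_ntT Pool.Agent.Lib.MP_1a91b9_ntX.DB
open Pool.Agent.Lib.MP_1a91b9_ntT.Rq (Fix)

/-- The action of Galois on a torsion point `T` of annihilator `(M)`, over a Galois extension of `K`. -/
def GalPs [DD] [HC] (M : ℕ) : Prop :=
  ∀ (L : Type) [Field L] [NumberField L] [Algebra K L] [IsGalois K L] [DecidableEq L] (T : Pt L),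
    MP_1a91b9_ntX.DB.Ord (M : 𝓞 K) T → ∀ σ : Gal(L/K), ∃ c : 𝓞 K, IsCoprime c (M : 𝓞 K) ∧
      ga σ T = sm L c T ∧ ps (Ideal.span {c}) = c

/-- the sixth roots of unity of `ℂ` are the units of `𝓞 K` -/
private theorem Dl_root {ζ : ℂ} (h : ζ ^ 6 = 1) : ∃ u : (𝓞 K)ˣ, embK ((u : 𝓞 K) : K) = ζ := by
  have h3 : (S4.omO : 𝓞 K) ^ 3 = 1 := by
    linear_combination (S4.omO - 1) * S4.omO_eq
  obtain ⟨w, hw⟩ : ∃ w : (𝓞 K)ˣ, (w : 𝓞 K) = S4.omO :=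
    ⟨⟨S4.omO, S4.omO ^ 2, by rw [← h3]; ring, by rw [← h3]; ring⟩, rfl⟩
  have hwe : embK ((w : 𝓞 K) : K) = zt := by rw [hw]; exact S4.embK_omO
  have hzt : zt ^ 2 + zt + 1 = 0 := by
    have h1 : (embK ((S4.omO : 𝓞 K) : K)) ^ 2 + embK ((S4.omO : 𝓞 K) : K) + 1 = 0 := by
      have h2 := congrArg (fun x : 𝓞 K => embK (algebraMap (𝓞 K) K x)) S4.omO_eq
      simp only [map_add, map_pow, map_one, map_zero] at h2
      exact h2
    rwa [S4.embK_omO] at h1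
  have key : ∀ z : ℂ, z ^ 3 = 1 → ∃ u : (𝓞 K)ˣ, embK ((u : 𝓞 K) : K) = z := by
    intro z hz
    have h1 : (z - 1) * ((z - zt) * (z - zt ^ 2)) = 0 := by
      have e : (z - 1) * ((z - zt) * (z - zt ^ 2)) = z ^ 3 - 1 := by
        linear_combination (z * zt - z ^ 2 - (zt - 1)) * hzt
      rw [e, hz, sub_self]
    rcases mul_eq_zero.1 h1 with h2 | h2
    · refine ⟨1, ?_⟩
      rw [Units.val_one, sub_eq_zero.1 h2]
      exact (congrArg embK (map_one (algebraMap (𝓞 K) K))).trans (map_one embK)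
    · rcases mul_eq_zero.1 h2 with h2 | h2
      · exact ⟨w, by rw [hwe, sub_eq_zero.1 h2]⟩
      · refine ⟨w ^ 2, ?_⟩
        rw [sub_eq_zero.1 h2, Units.val_pow_eq_pow_val, ← hwe, ← map_pow]
        exact congrArg embK (map_pow (algebraMap (𝓞 K) K) _ _)
  have h1 : (ζ ^ 3 - 1) * (ζ ^ 3 + 1) = 0 := by linear_combination h
  rcases mul_eq_zero.1 h1 with h2 | h2
  · exact key ζ (sub_eq_zero.1 h2)
  · obtain ⟨u, hu⟩ := key (-ζ) (by linear_combination -h2)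
    refine ⟨-u, ?_⟩
    rw [Units.val_neg]
    refine (congrArg embK (map_neg (algebraMap (𝓞 K) K) _)).trans ?_
    rw [map_neg]
    change -embK ((u : 𝓞 K) : K) = ζ
    rw [hu, neg_neg]

/-- the automorphism as an automorphism of the `K`-algebra `ℂ` -/
private theorem Dl_alg {τ : ℂ ≃+* ℂ} (hτ : Fix τ) : ∃ t : ℂ ≃ₐ[K] ℂ, ∀ z, t z = τ z :=
  ⟨AlgEquiv.ofRingEquiv (f := τ) (fun x => Rq.fx_K hτ x), fun _ => rfl⟩

private theorem Dl_lattice {M : ℕ} (hM : 0 < M) (c : 𝓞 K) :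
    embK (c : K) * (1 / M) ∈ PP.lattice ↔ (M : 𝓞 K) ∣ c := by
  have hM0 : (M : ℂ) ≠ 0 := by exact_mod_cast hM.ne'
  have hMe : embK (((M : 𝓞 K) : 𝓞 K) : K) = M := by
    have h1 : (((M : 𝓞 K) : 𝓞 K) : K) = (M : K) := map_natCast (algebraMap (𝓞 K) K) M
    rw [h1, map_natCast]
  rw [S3.mem_PP_iff]
  constructor
  · rintro ⟨a, ha⟩
    refine ⟨a, ?_⟩
    apply RingOfIntegers.ext
    apply embK.toRingHom.injective
    change embK (c : K) = embK (algebraMap (𝓞 K) K ((M : 𝓞 K) * a))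
    rw [map_mul, map_mul]
    change embK (c : K) = embK (((M : 𝓞 K) : 𝓞 K) : K) * embK (a : K)
    rw [hMe, ha]
    field_simp
  · rintro ⟨a, rfl⟩
    refine ⟨a, ?_⟩
    have h1 : embK ((((M : 𝓞 K) * a : 𝓞 K)) : K) = M * embK (a : K) := by
      change embK (algebraMap (𝓞 K) K ((M : 𝓞 K) * a)) = _
      rw [map_mul, map_mul]
      change embK (((M : 𝓞 K) : 𝓞 K) : K) * embK (a : K) = _
      rw [hMe]
    rw [h1]
    field_simp

/-- the action of `τ` on the uniformisation of `y² + y = x³` -/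
private theorem Dl_act0 [DecidableEq ℂ] {τ : ℂ ≃+* ℂ} {t : ℂ ≃ₐ[K] ℂ} (ht : ∀ z, t z = τ z)
    (u0 : ℂ →+ MP_1a91b9_ntT.DB.Pt ℂ) (h0 : ∀ z, u0 z = 0 ↔ z ∈ PP.lattice)
    (h1 : ∀ z, z ∉ PP.lattice → MP_1a91b9_ntT.DB.xc (u0 z) = S3.X z ∧
      MP_1a91b9_ntT.DB.yc (u0 z) = (S3.Y z - 1) / 2) {z w : ℂ} (h : Rq.Rel τ z w) :
    MP_1a91b9_ntT.DB.pm (t : ℂ →ₐ[K] ℂ) (u0 z) = u0 w := by
  rcases h with ⟨hz, hw⟩ | ⟨hz, hw, hX, hY⟩
  · rw [(h0 z).2 hz, (h0 w).2 hw, map_zero]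
  · have hz0 : u0 z ≠ 0 := fun e => hz ((h0 z).1 e)
    have hw0 : u0 w ≠ 0 := fun e => hw ((h0 w).1 e)
    have hp0 : MP_1a91b9_ntT.DB.pm (t : ℂ →ₐ[K] ℂ) (u0 z) ≠ 0 := by
      intro e
      apply hz0
      apply MP_1a91b9_ntT.DB.pm_inj (t : ℂ →ₐ[K] ℂ)
      rw [e, map_zero]
    refine MP_1a91b9_ntT.DB.pt_ext hp0 hw0 ?_ ?_
    · rw [MP_1a91b9_ntT.DB.xc_pm, (h1 z hz).1, (h1 w hw).1, hX]
      exact ht _
    · rw [MP_1a91b9_ntT.DB.yc_pm, (h1 z hz).2, (h1 w hw).2, hY]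
      have e : (t : ℂ →ₐ[K] ℂ) ((S3.Y z - 1) / 2) = τ ((S3.Y z - 1) / 2) := ht _
      rw [e, map_div₀, map_sub, map_one, map_ofNat]

section
variable [DD]

private theorem Dl_sm_mul {F : Type*} [Field F] [Algebra K F] [DecidableEq F] (a b : 𝓞 K)
    (P : Pt F) : sm F (a * b) P = sm F a (sm F b P) := by
  rw [map_mul]
  rfl

private theorem Dl_phi_congr {F : Type*} [Field F] [Algebra K F] [DecidableEq F] {d d' : F}
    (h : d = d') (hd : 16 * d ^ 6 = dD F) (hd' : 16 * d' ^ 6 = dD F)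
    (P : MP_1a91b9_ntT.DB.Pt F) : phi F d hd P = phi F d' hd' P := by
  subst h
  rfl

private theorem Dl_phi_ord {F : Type*} [Field F] [Algebra K F] [DecidableEq F] {δ : F}
    (hδ : 16 * δ ^ 6 = dD F) (c : 𝓞 K) (P : MP_1a91b9_ntT.DB.Pt F) :
    sm F c (phi F δ hδ P) = 0 ↔ MP_1a91b9_ntT.DB.sm F c P = 0 := by
  rw [← phi_sm]
  exact (phi F δ hδ).map_eq_zero_iff

/-- the change of the isomorphism -/
private theorem Dl_chg {F : Type*} [Field F] [Algebra K F] [DecidableEq F] {δ δ' : F}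
    (hδ : 16 * δ ^ 6 = dD F) (hδ' : 16 * δ' ^ 6 = dD F) {ε : (𝓞 K)ˣ}
    (hε : algebraMap K F ((ε : 𝓞 K) : K) * δ' = δ) {χ : 𝓞 K} {P : MP_1a91b9_ntT.DB.Pt F}
    (f : F →ₐ[K] F) (hf : f δ = δ')
    (h : MP_1a91b9_ntT.DB.pm f P = MP_1a91b9_ntT.DB.sm F χ P) :
    pm f (phi F δ hδ P) = sm F ((ε : 𝓞 K) * χ) (phi F δ hδ P) := by
  rw [phi_pm hδ, h, Dl_phi_congr hf _ hδ', ← phi_unit hδ' ε, Dl_phi_congr hε _ hδ, phi_sm,
    Dl_sm_mul]

private theorem Dl_point [DecidableEq ℂ] {M : ℕ} (hM : 0 < M) {τ : ℂ ≃+* ℂ}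
    {t : ℂ ≃ₐ[K] ℂ} (ht : ∀ z, t z = τ z) {χ : 𝓞 K} (hχ : RlM τ M χ) {δ : ℂ}
    (hδ : 16 * δ ^ 6 = dD ℂ) {ε : (𝓞 K)ˣ} (hε : embK ((ε : 𝓞 K) : K) * τ δ = δ) :
    ∃ T₀ : Pt ℂ, MP_1a91b9_ntX.DB.Ord (M : 𝓞 K) T₀ ∧
      pm (t : ℂ →ₐ[K] ℂ) T₀ = sm ℂ ((ε : 𝓞 K) * χ) T₀ := by
  obtain ⟨u0, -, h0, h1, -, h5⟩ := MP_1a91b9_ntT.DB.exists_uni
  refine ⟨phi ℂ δ hδ (u0 (1 / M)), ?_, ?_⟩
  · intro c
    rw [Dl_phi_ord, ← h5, h0]
    exact Dl_lattice hM c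
  · have e1 : MP_1a91b9_ntT.DB.pm (t : ℂ →ₐ[K] ℂ) (u0 (1 / M)) =
        MP_1a91b9_ntT.DB.sm ℂ χ (u0 (1 / M)) := by
      have h6 := hχ 1
      have h7 : embK (((1 : 𝓞 K)) : K) = 1 :=
        (congrArg embK (map_one (algebraMap (𝓞 K) K))).trans (map_one embK)
      rw [h7, mul_one] at h6
      rw [Dl_act0 ht u0 h0 h1 h6, ← h5]
      apply congrArg
      rw [mul_one_div]
    have hδτ : 16 * τ δ ^ 6 = dD ℂ := by
      have h8 := delta_map hδ (t : ℂ →ₐ[K] ℂ)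
      have h9 : (t : ℂ →ₐ[K] ℂ) δ = τ δ := ht δ
      rwa [h9] at h8
    exact Dl_chg hδ hδτ ((congrArg (· * τ δ) (algebraMap_eq _)).trans hε) (t : ℂ →ₐ[K] ℂ) (ht δ)
      e1

/-- a torsion point of `ℂ` is defined over a Galois extension of `K` -/
private theorem Dl_field [DecidableEq ℂ] {β : 𝓞 K} (hβ : β ≠ 0) {T₀ : Pt ℂ}
    (hT : sm ℂ β T₀ = 0) :
    ∃ L : IntermediateField K ℂ, FiniteDimensional K L ∧ IsGalois K L ∧ xc T₀ ∈ L ∧
      yc T₀ ∈ L := by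
  classical
  have hT' : sm ℂ β T₀ = pm (Algebra.ofId K ℂ) (0 : Pt K) := by rw [hT, map_zero]
  obtain ⟨hx, hy⟩ := MP_1a91b9_ntX.DX.alg_of_div (F := K) (Algebra.ofId K ℂ) hβ hT'
  have hxi : IsIntegral K (xc T₀) := (hx.tower_top K).isIntegral
  have hyi : IsIntegral K (yc T₀) := (hy.tower_top K).isIntegral
  obtain ⟨p, hp⟩ : ∃ p : Polynomial K, p = minpoly K (xc T₀) * minpoly K (yc T₀) := ⟨_, rfl⟩
  have hp0 : p ≠ 0 := by
    rw [hp]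
    exact mul_ne_zero (minpoly.ne_zero hxi) (minpoly.ne_zero hyi)
  have hs : (p.map (algebraMap K ℂ)).Splits := IsAlgClosed.splits _
  have hsp : p.IsSplittingField K (IntermediateField.adjoin K (p.rootSet ℂ)) :=
    IntermediateField.adjoin_rootSet_isSplittingField hs
  have hfin : FiniteDimensional K (IntermediateField.adjoin K (p.rootSet ℂ)) :=
    Polynomial.IsSplittingField.finiteDimensional _ p
  have hnorm : Normal K (IntermediateField.adjoin K (p.rootSet ℂ)) :=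
    Normal.of_isSplittingField p
  refine ⟨IntermediateField.adjoin K (p.rootSet ℂ), hfin, ⟨⟩, ?_, ?_⟩
  · apply IntermediateField.subset_adjoin
    rw [Polynomial.mem_rootSet]
    refine ⟨hp0, ?_⟩
    rw [hp, map_mul, minpoly.aeval, zero_mul]
  · apply IntermediateField.subset_adjoin
    rw [Polynomial.mem_rootSet]
    refine ⟨hp0, ?_⟩
    rw [hp, map_mul, minpoly.aeval, mul_zero]

private theorem Dl_down [DecidableEq ℂ] (L : IntermediateField K ℂ) [DecidableEq L] {T₀ : Pt ℂ}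
    (hx : xc T₀ ∈ L) (hy : yc T₀ ∈ L) : ∃ T : Pt L, pm L.val T = T₀ := by
  rcases cases_pt T₀ with rfl | ⟨x, y, h, rfl⟩
  · exact ⟨0, map_zero _⟩
  · rw [xc_mk] at hx
    rw [yc_mk] at hy
    have h0 : (⟨y, hy⟩ : L) ^ 2 = (⟨x, hx⟩ : L) ^ 3 + dD L := Subtype.ext (by
      push_cast
      exact h)
    refine ⟨mkPt (⟨x, hx⟩ : L) ⟨y, hy⟩ h0, ?_⟩
    obtain ⟨h', e'⟩ := pm_mk L.val (⟨x, hx⟩ : L) ⟨y, hy⟩ h0
    rw [e', mk_inj]
    exact ⟨rfl, rfl⟩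

private theorem Dl_ga [DecidableEq ℂ] (L : IntermediateField K ℂ) [DecidableEq L] [Normal K L]
    (t : ℂ ≃ₐ[K] ℂ) (T : Pt L) :
    pm L.val (ga (t.restrictNormal L) T) = pm (t : ℂ →ₐ[K] ℂ) (pm L.val T) := by
  have e : L.val.comp (((t.restrictNormal L : L ≃ₐ[K] L) : L →ₐ[K] L).restrictScalars K) =
      (t : ℂ →ₐ[K] ℂ).comp L.val := by
    ext x
    exact t.restrictNormal_commutes L x
  unfold ga
  rw [WeierstrassCurve.Affine.Point.map_map, WeierstrassCurve.Affine.Point.map_map, e]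

end

theorem ps_act [DD] [HC] {M : ℕ} (hM : 0 < M) (hf : (HC.f : 𝓞 K) ∣ (M : 𝓞 K)) (hg : GalPs M)
    {τ : ℂ ≃+* ℂ} (hτ : Fix τ) {χ : 𝓞 K} (hχ : RlM τ M χ) (hc : IsCoprime χ (M : 𝓞 K))
    {δ : ℂ} (hδ : 16 * δ ^ 6 = dD ℂ) :
    ∃ u : (𝓞 K)ˣ, ps (Ideal.span {χ}) = u * χ ∧ embK ((u : 𝓞 K) : K) * τ δ = δ := by
  classical
  obtain ⟨t, ht⟩ := Dl_alg hτ
  -- the unit
  have hδτ : 16 * τ δ ^ 6 = dD ℂ := by
    have h8 := delta_map hδ (t : ℂ →ₐ[K] ℂ)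
    have h9 : (t : ℂ →ₐ[K] ℂ) δ = τ δ := ht δ
    rwa [h9] at h8
  have hτδ : τ δ ≠ 0 := delta_ne ℂ hδτ
  obtain ⟨ε, hε⟩ := Dl_root (ζ := δ / τ δ) (by
    rw [div_pow, div_eq_one_iff_eq (pow_ne_zero 6 hτδ)]
    have h16 : (16 : ℂ) ≠ 0 := by norm_num
    exact mul_left_cancel₀ h16 (hδ.trans hδτ.symm))
  have hε' : embK ((ε : 𝓞 K) : K) * τ δ = δ := by rw [hε, div_mul_cancel₀ _ hτδ]
  obtain ⟨T₀, hord, hact⟩ := Dl_point hM ht hχ hδ hε'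
  have hM0 : (M : 𝓞 K) ≠ 0 := by exact_mod_cast hM.ne'
  obtain ⟨L, hfin, hgal, hx, hy⟩ := Dl_field hM0 ((hord _).2 dvd_rfl)
  obtain ⟨T, hT⟩ := Dl_down L hx hy
  have hnf : NumberField L := NumberField.of_module_finite K L
  have hnorm : Normal K L := IsGalois.to_normal
  have hordT : MP_1a91b9_ntX.DB.Ord (M : 𝓞 K) T := by
    rw [← Ord.map L.val, hT]
    exact hord
  obtain ⟨c, hc1, hc2, hc3⟩ := hg L T hordT (t.restrictNormal L)
  have h1 := Dl_ga L t T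
  rw [hc2, pm_sm, hT, hact, hord.sm_eq_iff] at h1
  have h2 : HC.f ∣ (ε : 𝓞 K) * χ - c := by
    refine hf.trans ?_
    rw [← dvd_neg, neg_sub]
    exact h1
  have h3 : AN.Fx ((ε : 𝓞 K) * χ) :=
    AN.Fx.congr (a := c) hc3 (hc1.of_isCoprime_of_dvd_right hf) h2
  refine ⟨ε, ?_, hε'⟩
  have h4 : Ideal.span {(ε : 𝓞 K) * χ} = Ideal.span {χ} :=
    Ideal.span_singleton_mul_left_unit ε.isUnit χ
  rw [← h4]
  exact h3

end Pool.Agent.Lib.MP_1a91b9_ntX.RG
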