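import Pool.Agent.Lib.MP_1a91b9_ntX.RG.Defs
import Pool.Agent.Lib.MP_1a91b9_ntX.AN.Unfold

/-!
# The decomposition of the L-series by a complete system

Proof. `psbC F I` is the complex conjugate of `embK (psi F I)`, `psi F I = ps (relNorm I)`.
`unfold_C`: as `unfold_K` in MP_1a91b9_ntT/Rg/Un.lean (and `unfold_L` in MP_1a91b9_ntX/AN/Unfold.lean, with the names of the folder AN: `AN.psbC`, `AN.psC_mul_psbC`, `AN.norm_psbC_le`, `AN.unfold_term`, `AN.psi_span` : the unit of a residue class modulo `f`), with `h.ray` in place of `unfold_index`, `m = span {up HC.f F}` and the function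
`X I = indC m I` (`1` if `I` is prime to `m`, else `0`): on the ideals prime to `m` it is `1`. The coefficient is `conj (embK (ε i)) / psbC F (b i)` with `psi F (span {t i}) = ε i * N (t i)`: `kk (b i) (t i)` is equal to this (`Nm (t i) = embK (norm t i) ≠ 0`).
`kk_mem`: `psbC F I = embK y` for some `y ∈ K` by `Rq.va_conj` (the complex conjugation on `K`; see `hk` in `unfold_K`), the same for `conj (Nm t)`.
`kk_smul`: `psbC F (span {χ t}) = psbC F (span {χ}) * psbC F (span {t})`, `Nm (χ t) = embK χ ^ n * Nm t` (`Algebra.norm_algebraMap`, `n = finrank K F`), `relNorm (span {χ}) = span {χ} ^ n` (`Ideal.relNorm_singleton`, `Algebra.intNorm`, see `AN.psi_self` or `S4.nK_coe`, or `Ideal.relNorm_algebraMap`), so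
`psi F (span {χ}) = ps (span {χ}) ^ n = (u χ) ^ n` (`ps_pow` of HD.lean); if `χ ≠ 0` divide; `χ = 0` is excluded by `hχ0`.
-/

set_option autoImplicit false

namespace Pool.Agent.Lib.MP_1a91b9_ntX.RG

open NumberField IsDedekindDomain Pool.Agent.Lib.MP_1a91b9_nt Pool.Agent.Lib.MP_1a91b9_ntT
  Pool.Agent.Lib.MP_1a91b9_ntT.S4
open Pool.Agent.Lib.MP_1a91b9_ntG (up)
open Pool.Agent.Lib.MP_1a91b9_ntX.AN (psbC psC)

universe u

variable [DD] [HC] {F : Type u} [Field F] [NumberField F] [Algebra K F]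

private theorem Un_psb (I : Ideal (𝓞 F)) : ∃ y : K, psbC F I = embK y := by
  obtain ⟨y, hy⟩ := Rq.va_conj ((psi F I : 𝓞 K) : K)
  exact ⟨y, hy⟩

private theorem Un_kk {b : Ideal (𝓞 F)} {t : 𝓞 F} (ht : t ≠ 0) {ε : 𝓞 K}
    (hε : psi F (Ideal.span {t}) = ε * nK t) :
    kk b t = (starRingEnd ℂ) (embK (ε : K)) / psbC F b := by
  have hN : (starRingEnd ℂ) (Nm (t : F)) ≠ 0 := by
    rw [Ne, map_eq_zero]
    refine Nm_ne_zero ?_
    intro h
    exact ht (RingOfIntegers.coe_injective (h.trans (map_zero (algebraMap (𝓞 F) F)).symm))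
  have h1 : psbC F (Ideal.span {t}) =
      (starRingEnd ℂ) (Nm (t : F)) * (starRingEnd ℂ) (embK (ε : K)) := by
    rw [psbC, psC, hε, ← embK_nK, ← map_mul]
    change (starRingEnd ℂ) (embK (algebraMap (𝓞 K) K (_ * _))) = _
    rw [map_mul, map_mul, mul_comm]
  rw [kk, h1, mul_div_mul_left _ _ hN]

omit [DD] [HC] in
private theorem Un_nK (χ : 𝓞 K) :
    nK (algebraMap (𝓞 K) (𝓞 F) χ) = χ ^ Module.finrank K F := by
  apply RingOfIntegers.coe_injective
  refine (nK_coe (algebraMap (𝓞 K) (𝓞 F) χ)).trans ?_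
  have h1 : ((algebraMap (𝓞 K) (𝓞 F) χ : 𝓞 F) : F) = algebraMap K F (χ : K) := rfl
  rw [h1, Algebra.norm_algebraMap, map_pow]

theorem unfold_C {ι : Type u} [Fintype ι] {b : ι → Ideal (𝓞 F)} {t : ι → 𝓞 F}
    (h : CSys (Ideal.span {up HC.f F}) b t) (A : ι → ℂ → ℂ)
    (hA : ∀ i R, IsRep (Ideal.span {up HC.f F}) (b i) (t i) R → ∀ s : ℂ, 2 < s.re →
        HasSum (fun r : R => (starRingEnd ℂ) (Nm ((r : 𝓞 F) : F)) *
          ((‖Nm ((r : 𝓞 F) : F)‖ : ℝ) : ℂ) ^ (-2 * s)) (A i s)) (s : ℂ) (hs : 2 < s.re) :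
    Lf (fun I => psbC F I * indC (Ideal.span {up HC.f F}) I) s =
      ∑ i, kk (b i) (t i) * (Ideal.absNorm (b i) : ℂ) ^ s * A i s := by
  classical
  have hm1 : Ideal.span {up HC.f F} ≠ 1 := AN.up_span_ne_top
  choose ε hε using fun i => AN.psi_span (t i) (h.tcop i)
  have hNb : ∀ i, (Ideal.absNorm (b i) : ℂ) ≠ 0 := by
    intro i
    have := Ideal.absNorm_ne_zero_iff_mem_nonZeroDivisors.mpr
      (mem_nonZeroDivisors_iff_ne_zero.mpr (h.ne i))
    exact_mod_cast this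
  have hpb : ∀ i, psbC F (b i) ≠ 0 := by
    intro i h0
    apply hNb i
    rw [← AN.psC_mul_psbC (b i) (h.cop i), h0, mul_zero]
  have hkk : ∀ i, kk (b i) (t i) =
      (starRingEnd ℂ) (embK ((ε i : 𝓞 K) : K)) / psbC F (b i) := fun i =>
    Un_kk (h.tne i) (hε i (t i) (by rw [sub_self]; exact dvd_zero _))
  choose R hR using fun i => exists_isRep (Ideal.span {up HC.f F}) (b i) (t i)
  obtain ⟨e, hinj, he, hsurj⟩ := h.ray R hR
  obtain ⟨g, hg⟩ : ∃ g : Ideal (𝓞 F) → ℂ, ∀ I, g I =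
      psbC F I * indC (Ideal.span {up HC.f F}) I * (Ideal.absNorm I : ℂ) ^ (-s) :=
    ⟨_, fun _ => rfl⟩
  have hs0 : s.re ≠ 0 := by
    intro h0
    rw [h0] at hs
    linarith
  have hsum : Summable g := by
    refine Summable.of_norm ?_
    have h2 := summable_ideals_mul F
      (fun I => psbC F I * indC (Ideal.span {up HC.f F}) I) 1 (1 / 2) (fun I => ?_) s
      (by linarith) hs0
    · refine h2.congr fun I => ?_
      rw [hg]
    · rw [one_mul]
      exact AN.norm_psbC_mul_le _ I (norm_indC_le _ I)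
  have hsupp : Function.support g ⊆ Set.range e := by
    intro I hI
    by_cases hc : IsCoprime I (Ideal.span {up HC.f F})
    · exact hsurj I hc
    · exfalso
      apply hI
      rw [hg, indC_of_not hc, mul_zero, zero_mul]
  have h1 : Lf (fun I => psbC F I * indC (Ideal.span {up HC.f F}) I) s = ∑' x, g (e x) := by
    rw [hinj.tsum_eq hsupp]
    exact tsum_congr fun I => (hg I).symm
  rw [h1]
  have hsum' : Summable fun x => g (e x) := hsum.comp_injective hinj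
  rw [hsum'.tsum_sigma, tsum_fintype]
  refine Finset.sum_congr rfl fun i _ => ?_
  rw [hkk i]
  obtain ⟨C, hC⟩ : ∃ C : ℂ, C = (starRingEnd ℂ) (embK ((ε i : 𝓞 K) : K)) / psbC F (b i) *
      (Ideal.absNorm (b i) : ℂ) ^ s := ⟨_, rfl⟩
  rw [← hC]
  have hterm : ∀ r : R i, g (e ⟨i, r⟩) = C * ((starRingEnd ℂ) (Nm ((r : 𝓞 F) : F)) *
          ((‖Nm ((r : 𝓞 F) : F)‖ : ℝ) : ℂ) ^ (-2 * s)) := by
    intro r
    obtain ⟨g1, g2⟩ := he ⟨i, r⟩
    have g2' : e ⟨i, r⟩ * b i = Ideal.span {(r : 𝓞 F)} := g2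
    have hr0 : (r : 𝓞 F) ≠ 0 := by
      intro h0
      rw [h0, Ideal.span_singleton_zero, ← Ideal.zero_eq_bot] at g2'
      rcases mul_eq_zero.mp g2' with h' | h'
      · rw [h'] at g1
        have g3 := isCoprime_zero_left.mp g1
        rw [Ideal.isUnit_iff] at g3
        exact hm1 (by rw [g3, Ideal.one_eq_top])
      · exact h.ne i h'
    have hrt : up HC.f F ∣ (r : 𝓞 F) - t i := by
      rw [← Ideal.mem_span_singleton]
      exact Ideal.mul_le_left ((hR i).mem r r.2)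
    have h3 := AN.unfold_term (e ⟨i, r⟩) (b i) r (ε i) (h.ne i) hr0 (hpb i) g2' (hε i r hrt) 1 s
    rw [hg, indC_of g1, h3, hC, one_mul]
  rw [tsum_congr hterm]
  exact ((hA i (R i) (hR i) s hs).mul_left C).tsum_eq

theorem kk_mem (b : Ideal (𝓞 F)) (t : 𝓞 F) : ∃ y : K, embK y = kk b t := by
  obtain ⟨y1, h1⟩ := Un_psb (Ideal.span {t})
  obtain ⟨y2, h2⟩ := Un_psb b
  obtain ⟨y3, h3⟩ := Rq.va_conj (Algebra.norm K (t : F))
  refine ⟨y1 / (y3 * y2), ?_⟩
  rw [kk, h1, h2, Nm, h3, map_div₀, map_mul]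

theorem kk_smul {χ : 𝓞 K} (hχ0 : χ ≠ 0) {u : (𝓞 K)ˣ} (hu : ps (Ideal.span {χ}) = u * χ)
    (b : Ideal (𝓞 F)) (t : 𝓞 F) :
    kk b (algebraMap (𝓞 K) (𝓞 F) χ * t) =
      (starRingEnd ℂ) (embK ((u : 𝓞 K) : K)) ^ Module.finrank K F * kk b t := by
  have hn : psi F (Ideal.span {algebraMap (𝓞 K) (𝓞 F) χ}) =
      ((u : 𝓞 K) * χ) ^ Module.finrank K F := by
    rw [psi, relNorm_span, Un_nK, ← Ideal.span_singleton_pow, ps_pow, hu]
  have h0 : embK ((χ : 𝓞 K) : K) ≠ 0 := by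
    rw [Ne, map_eq_zero]
    intro h
    exact hχ0 (RingOfIntegers.coe_injective (h.trans (map_zero (algebraMap (𝓞 K) K)).symm))
  have h1 : psbC F (Ideal.span {algebraMap (𝓞 K) (𝓞 F) χ * t}) =
      (starRingEnd ℂ) (embK ((χ : 𝓞 K) : K)) ^ Module.finrank K F *
      ((starRingEnd ℂ) (embK ((u : 𝓞 K) : K)) ^ Module.finrank K F *
        psbC F (Ideal.span {t})) := by
    rw [← Ideal.span_singleton_mul_span_singleton, AN.psbC_mul, ← mul_assoc]
    apply congrArg (· * psbC F (Ideal.span {t}))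
    rw [psbC, psC, hn, ← mul_pow, ← map_mul, ← map_mul, ← map_pow, ← map_pow]
    apply congrArg
    apply congrArg
    change algebraMap (𝓞 K) K _ = (algebraMap (𝓞 K) K _ * algebraMap (𝓞 K) K _) ^ _
    rw [map_pow, map_mul, mul_comm]
  have h2 : (starRingEnd ℂ) (Nm ((algebraMap (𝓞 K) (𝓞 F) χ * t : 𝓞 F) : F)) =
      (starRingEnd ℂ) (embK ((χ : 𝓞 K) : K)) ^ Module.finrank K F *
        (starRingEnd ℂ) (Nm (t : F)) := by
    rw [← embK_nK, nK_mul, Un_nK, ← embK_nK, ← map_pow, ← map_mul, ← map_pow, ← map_mul]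
    apply congrArg
    apply congrArg
    change algebraMap (𝓞 K) K _ = algebraMap (𝓞 K) K _ ^ _ * algebraMap (𝓞 K) K _
    rw [map_mul, map_pow]
  have h3 : (starRingEnd ℂ) (embK ((χ : 𝓞 K) : K)) ^ Module.finrank K F ≠ 0 := by
    refine pow_ne_zero _ ?_
    rw [Ne, map_eq_zero]
    exact h0
  rw [kk, kk, h1, h2, mul_assoc, mul_div_mul_left _ _ h3, mul_div_assoc]

end Pool.Agent.Lib.MP_1a91b9_ntX.RG
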