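import Pool.Agent.Lib.MP_1a91b9_ntX.RG.Su
import Pool.Agent.Lib.MP_1a91b9_ntT.Rg.Vm

/-!
# The automorphisms over `K` and the values of the L-series of the classes

PROOF (complete; helper15): as `val_fixed_q` in MP_1a91b9_ntT/Rg/Va.lean (copy the proof, `κ = Om`), for the two classes `t` and `t' = χ₀ t` at the same time. The choices `β'`, `b1`, `v₀`, `ε`, `S` (`co_S`) do not depend on `t`. `de_adm` gives `R₀` for `t` and `R₀'` for `t'`; take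
`β` smooth for `3 * (R₀ * R₀') * N * N'`, so `hAdm` and `hAdm'`; `s2_main` for both functions: `I`, `I'`; `g₂`, `g₂'`. `C = Om ^ (m + 1) * dt σ b1`. `hpath`: `τ (I (path ..) / C) = I' (path ..) / C`, by `hS3` for the function `fun v => τ (I v / C) - I' v / C` and the subgroup `⊥`:
the cocycle relation for both; zero on dependent tuples for both; for a unimodular frame `w`: `Ell.fr_val` for `t` gives `D₁, c₁`, for `t'` gives `D₂, c₂`; the two conditions are stable under multiples, so `D = D₁ D₂`, `c = c₁ c₂` satisfy the conditions for both; `hI3` for both with these `D`, `c`; `sum_act` (RG/Su)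
instead of `sum_fixed`. `dt_rel` as before. Then `τ (g₂ 1 / C) = g₂' 1 / C` (`hg₂v` for both), `g₂ 1 = g 1 * facQ b 1 * facP b' 1` and `g₂' 1 = g' 1 * facQ b 1 * facP b' 1` (put the piece of the proof of `val_fixed_q` after `hg2` up to `hg1` in a private lemma and use it twice), the factors are in `K`
(as there), and the change of basis as there. `t' ∈ 𝔟`; `htt' : t' ∉ span {up f F} * 𝔟` is a hypothesis.
`val_act`: from `val_act_q` with `Rg.exists_q` and `ε₀ = 2`, as `val_K` in MP_1a91b9_ntT/Rg/Vm.lean.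
-/

set_option autoImplicit false

namespace Pool.Agent.Lib.MP_1a91b9_ntX.RG

open NumberField Pool.Agent.Lib.MP_1a91b9_ntG Pool.Agent.Lib.MP_1a91b9_ntT
  Pool.Agent.Lib.MP_1a91b9_ntT.Ell Pool.Agent.Lib.MP_1a91b9_ntT.Rg
open Pool.Agent.Lib.MP_1a91b9_ntT.Rq (Fix dt dt_ne dt_rel fx_K va_conj)

universe u

variable {F : Type u} [Field F] [NumberField F] [Algebra K F]

private theorem Va_up {q : ℕ} (hq1 : q ≠ 1) {m : ℕ} {𝔟 𝔪 : Ideal (𝓞 F)} {t : 𝓞 F} (ht : t ∈ 𝔟)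
    (ht' : t ∉ 𝔪 * 𝔟) (hu : ∀ v ∈ unV 𝔪, Algebra.norm K ((v : 𝓞 F) : F) = 1) {R R' : ℕ}
    (hR : (R : 𝓞 F) ∈ 𝔪) (hR' : (R' : 𝓞 F) ∈ 𝔪) (h3 : 3 ∣ R) {β β' : 𝓞 F} {b b' : 𝓞 K}
    (hβ : Ell.Smooth q R β b) (hβ' : Ell.Smooth q R' β' b') (hcop : IsCoprime β β')
    {ε : Fin m → (𝓞 F)ˣ} (hε : ∀ i, ε i ∈ unV 𝔪)
    (hεb : ∀ v ∈ unV 𝔪, ∃! k : Fin m → ℤ, v = ∏ i, ε i ^ k i) {g g₂ : ℂ → ℂ}
    (hg : Differentiable ℂ g)
    (hgs : ∀ X : Set F, IsRepsU 𝔪 (cls 𝔟 𝔪 t) X →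
      ∀ s : ℂ, 2 < s.re → HasSum (fun z : X => term s (z : F)) (g s))
    (hg₂ : Differentiable ℂ g₂)
    (hg₂s : ∀ X : Set F, IsReps (fun i => ((ε i : 𝓞 F) : F))
      (Function.support (del 𝔟 𝔪 t β' β b)) X → ∀ s : ℂ, 2 < s.re →
        HasSum (fun z : X => del 𝔟 𝔪 t β' β b (z : F) * (starRingEnd ℂ) (NF (z : F)) *
          (‖NF (z : F)‖ : ℂ) ^ (-2 * s)) (g₂ s)) :
    g₂ 1 = g 1 * facQ b 1 * facP b' 1 := by
  classical
  obtain ⟨h0cls, hVcls⟩ := co_cls 𝔟 𝔪 t ht ht'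
  obtain ⟨X, hX⟩ := co_exists 𝔪 (cls 𝔟 𝔪 t) h0cls hVcls
  have hX' : IsRepsU 𝔪 (Function.support (del 𝔟 𝔪 t β' β b)) (X \ mulI 𝔟 β') := by
    rw [Ell.co_sup hq1 𝔟 𝔪 t β' 3 le_rfl h3 hβ]
    refine ⟨fun z hz => ⟨hX.1 hz.1, hz.2⟩, ?_⟩
    rintro z ⟨hz1, hz2⟩
    obtain ⟨v, ⟨hv1, hv2⟩, hv3⟩ := hX.2 z hz1
    refine ⟨v, ⟨hv1, hv2, ?_⟩, ?_⟩
    · rw [co_mulI]
      exact hz2
    · rintro y ⟨hy1, hy2, -⟩
      exact hv3 y ⟨hy1, hy2⟩
  have hX'' : IsReps (fun i => ((ε i : 𝓞 F) : F))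
      (Function.support (del 𝔟 𝔪 t β' β b)) (X \ mulI 𝔟 β') :=
    (co_reps 𝔪 ε hε hεb _ _).1 hX'
  have heq : ∀ s : ℂ, 2 < s.re → g₂ s = g s * facQ b s * facP b' s := by
    intro s hs
    have h1 := hg₂s _ hX'' s hs
    have h2 := Ell.co_smooth hq1 𝔟 𝔪 t ht ht' hu hR hR' hβ hβ' hcop X hX s (g s)
      (hgs X hX s hs)
    have h3' : ∀ Y : Set F, ∀ a : ℂ,
        HasSum (fun z : Y => del 𝔟 𝔪 t β' β b z * term s (z : F)) a ↔
        HasSum (Y.indicator fun z : F => del 𝔟 𝔪 t β' β b z * term s z) a :=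
      fun Y a => hasSum_subtype_iff_indicator
        (f := fun z : F => del 𝔟 𝔪 t β' β b z * term s z)
    have h4 : HasSum (fun z : (X \ mulI 𝔟 β' : Set F) =>
        del 𝔟 𝔪 t β' β b z * term s (z : F)) (g₂ s) := by
      have h5 : (fun z : (X \ mulI 𝔟 β' : Set F) => del 𝔟 𝔪 t β' β b z * term s (z : F))
          = fun z : (X \ mulI 𝔟 β' : Set F) => del 𝔟 𝔪 t β' β b z *
            (starRingEnd ℂ) (NF (z : F)) * (‖NF (z : F)‖ : ℂ) ^ (-2 * s) := by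
        funext z
        rw [term, mul_assoc]
      rw [h5]
      exact h1
    have h5 := (h3' _ _).1 h4
    have h6 := (h3' _ _).1 h2
    have h7 : (X \ mulI 𝔟 β').indicator
          (fun z : F => del 𝔟 𝔪 t β' β b z * term s z)
        = X.indicator (fun z : F => del 𝔟 𝔪 t β' β b z * term s z) := by
      funext z
      by_cases hz : z ∈ X
      · by_cases hz2 : z ∈ mulI 𝔟 β'
        · have hd : del 𝔟 𝔪 t β' β b z = 0 := by
            unfold del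
            rw [if_neg]
            exact fun h => h.2 hz2
          rw [Set.indicator_of_notMem (fun h => h.2 hz2), Set.indicator_of_mem hz, hd, zero_mul]
        · rw [Set.indicator_of_mem (show z ∈ X \ mulI 𝔟 β' from ⟨hz, hz2⟩),
            Set.indicator_of_mem hz]
      · rw [Set.indicator_of_notMem (fun h => hz h.1), Set.indicator_of_notMem hz]
    rw [h7] at h5
    exact h5.unique h6
  have hid : g₂ = fun s => g s * facQ b s * facP b' s := by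
    have hd2 : Differentiable ℂ (fun s => g s * facQ b s * facP b' s) :=
      (hg.mul (facQ_diff b (kq_ne hq1 hβ.c0))).mul (facP_diff b' (kq_ne hq1 hβ'.c0))
    have ha1 : AnalyticOnNhd ℂ g₂ Set.univ := fun z _ => hg₂.analyticAt z
    have ha2 : AnalyticOnNhd ℂ (fun s => g s * facQ b s * facP b' s) Set.univ :=
      fun z _ => hd2.analyticAt z
    refine ha1.eq_of_eventuallyEq ha2 (z₀ := 3) ?_
    have hopen : IsOpen {s : ℂ | 2 < s.re} := isOpen_lt continuous_const Complex.continuous_re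
    filter_upwards [hopen.mem_nhds (show (3 : ℂ) ∈ {s : ℂ | 2 < s.re} by
      show (2 : ℝ) < (3 : ℂ).re
      norm_num)] with s hs
    exact heq s hs
  exact congrFun hid 1

/-- the factors are nonzero and fixed by the automorphisms over `K` -/
private theorem Va_fac {q : ℕ} (hq : q.Prime) {τ : ℂ ≃+* ℂ} (hτ : Fix τ) {b b' : 𝓞 K}
    (hb0 : IsCoprime b (q : 𝓞 K)) (hb1 : IsCoprime (b - 1) (q : 𝓞 K))
    (hb0' : IsCoprime b' (q : 𝓞 K)) (hb1' : IsCoprime (b' - 1) (q : 𝓞 K)) :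
    facQ b 1 ≠ 0 ∧ facP b' 1 ≠ 0 ∧ τ (facQ b 1) = facQ b 1 ∧ τ (facP b' 1) = facP b' 1 := by
  obtain ⟨A, hA⟩ := d3_exists hq
  obtain ⟨hQ1, -, hP1, -⟩ := Ell.co3_fac A hA b b' hb0 hb1 hb0' hb1'
  obtain ⟨-, -, hbA⟩ := kq_unitA A hA b hb0
  obtain ⟨-, -, hbA'⟩ := kq_unitA A hA b' hb0'
  have e1 : facQ b 1 = -(starRingEnd ℂ) (embK ((b - 1 : 𝓞 K) : K)) := by
    unfold facQ
    rw [co3_cpow _ hbA]
    have h2 : (((‖embK (b : K)‖ ^ 2 : ℝ)) : ℂ) = embK (b : K) * (starRingEnd ℂ) (embK (b : K)) := by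
      rw [Complex.mul_conj, Complex.normSq_eq_norm_sq]
    have h3 : (starRingEnd ℂ) (embK (b : K)) ≠ 0 := by
      simpa using hbA
    have h4 : embK ((b - 1 : 𝓞 K) : K) = embK (b : K) - 1 := by
      push_cast
      rw [map_sub, map_one]
    rw [h2, h4, map_sub, map_one]
    field_simp
    ring
  have e2 : facP b' 1 = embK ((b' - 1 : 𝓞 K) : K) * (embK (b' : K))⁻¹ := by
    unfold facP
    rw [co3_cpow _ hbA']
    have h3 : (starRingEnd ℂ) (embK (b' : K)) ≠ 0 := by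
      simpa using hbA'
    have h4 : embK ((b' - 1 : 𝓞 K) : K) = embK (b' : K) - 1 := by
      push_cast
      rw [map_sub, map_one]
    rw [h4]
    field_simp
  obtain ⟨y, hy⟩ := va_conj ((b - 1 : 𝓞 K) : K)
  refine ⟨hQ1, hP1, ?_, ?_⟩
  · rw [e1, hy, map_neg, fx_K hτ]
  · rw [e2, map_mul, map_inv₀, fx_K hτ, fx_K hτ]

omit [NumberField F] in
/-- the two conditions of a frame are stable under multiples -/
private theorem Va_scale {m : ℕ} {δ : F → ℂ} {w : Fin (m + 1) → F} {D c D' c' : ℕ}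
    (h1 : ∀ (i : Fin (m + 1)) (z : F), δ z ≠ 0 →
      ∃ a : 𝓞 K, (D : K) * Algebra.trace K F (w i * z) = (a : K))
    (h2 : ∀ μ : F, (∀ i : Fin (m + 1), ∃ a : 𝓞 K, Algebra.trace K F (w i * μ) = (c : K) * (a : K)) →
      ∀ z : F, δ (z + μ) = δ z) (hD : D ∣ D') (hc : c ∣ c') :
    (∀ (i : Fin (m + 1)) (z : F), δ z ≠ 0 →
      ∃ a : 𝓞 K, (D' : K) * Algebra.trace K F (w i * z) = (a : K)) ∧
    (∀ μ : F, (∀ i : Fin (m + 1), ∃ a : 𝓞 K, Algebra.trace K F (w i * μ) = (c' : K) * (a : K)) →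
      ∀ z : F, δ (z + μ) = δ z) := by
  obtain ⟨k, rfl⟩ := hD
  obtain ⟨l, rfl⟩ := hc
  refine ⟨fun i z hz => ?_, fun μ hμ z => h2 μ (fun i => ?_) z⟩
  · obtain ⟨a, ha⟩ := h1 i z hz
    refine ⟨(k : 𝓞 K) * a, ?_⟩
    have e : (((k : 𝓞 K) * a : 𝓞 K) : K) = (k : K) * (a : K) := by
      change algebraMap (𝓞 K) K ((k : 𝓞 K) * a) = _
      rw [map_mul, map_natCast]
    rw [e, ← ha]
    push_cast
    ring
  · obtain ⟨a, ha⟩ := hμ i
    refine ⟨(l : 𝓞 K) * a, ?_⟩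
    have e : (((l : 𝓞 K) * a : 𝓞 K) : K) = (l : K) * (a : K) := by
      change algebraMap (𝓞 K) K ((l : 𝓞 K) * a) = _
      rw [map_mul, map_natCast]
    rw [e, ha]
    push_cast
    ring

omit [Field F] [NumberField F] [Algebra K F] in
/-- the alternating relation for the difference of the functions -/
private theorem Va_alt {m : ℕ} {τ : ℂ ≃+* ℂ} {I I' : (Fin (m + 1) → F) → ℂ} {C : ℂ}
    {w : Fin (m + 2) → F} (h1 : ∑ i : Fin (m + 2), (-1) ^ (i : ℕ) * I (fun j => w (i.succAbove j)) = 0)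
    (h1' : ∑ i : Fin (m + 2), (-1) ^ (i : ℕ) * I' (fun j => w (i.succAbove j)) = 0) :
    ∑ i : Fin (m + 2), (-1) ^ (i : ℕ) * (τ (I (fun j => w (i.succAbove j)) / C) -
      I' (fun j => w (i.succAbove j)) / C) = 0 := by
  have hdiv : ∀ J : (Fin (m + 1) → F) → ℂ,
      ∑ i : Fin (m + 2), (-1) ^ (i : ℕ) * J (fun j => w (i.succAbove j)) = 0 →
      ∑ i : Fin (m + 2), (-1) ^ (i : ℕ) * (J (fun j => w (i.succAbove j)) / C) = 0 := by
    intro J hJ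
    have h4 : ∀ i : Fin (m + 2), (-1 : ℂ) ^ (i : ℕ) * (J (fun j => w (i.succAbove j)) / C) =
        ((-1) ^ (i : ℕ) * J (fun j => w (i.succAbove j))) / C := fun i => by
      rw [mul_div_assoc]
    rw [Finset.sum_congr rfl fun i _ => h4 i, ← Finset.sum_div, hJ, zero_div]
  have h2 := hdiv I h1
  have h2' := hdiv I' h1'
  have h5 := congrArg τ h2
  rw [map_sum, map_zero] at h5
  have h6 : ∀ i : Fin (m + 2), τ ((-1 : ℂ) ^ (i : ℕ) * (I (fun j => w (i.succAbove j)) / C)) =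
      (-1) ^ (i : ℕ) * τ (I (fun j => w (i.succAbove j)) / C) := fun i => by
    rw [map_mul, map_pow, map_neg, map_one]
  rw [Finset.sum_congr rfl fun i _ => h6 i] at h5
  have h7 : ∀ i : Fin (m + 2), (-1 : ℂ) ^ (i : ℕ) *
      (τ (I (fun j => w (i.succAbove j)) / C) - I' (fun j => w (i.succAbove j)) / C) =
      (-1) ^ (i : ℕ) * τ (I (fun j => w (i.succAbove j)) / C) -
        (-1) ^ (i : ℕ) * (I' (fun j => w (i.succAbove j)) / C) := fun i => mul_sub _ _ _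
  rw [Finset.sum_congr rfl fun i _ => h7 i, Finset.sum_sub_distrib, h5, h2', sub_zero]

/-- The form of the result for an auxiliary prime number `q`. -/
theorem val_act_q {q : ℕ} (hq : q.Prime) (hq3 : q ≠ 3) (ε₀ : 𝓞 K) (hε₀ : IsCoprime ε₀ (q : 𝓞 K))
    (hε₁ : IsCoprime (ε₀ ^ Module.finrank K F - 1) (q : 𝓞 K))
    {m : ℕ} {τ : ℂ ≃+* ℂ} (hτ : Fix τ) {f χ₀ : 𝓞 K} (hact : Hact τ f χ₀) (hf0 : f ≠ 0)
    (hfq : IsCoprime f (q : 𝓞 K)) (σ : Fin (m + 1) → (F →ₐ[K] ℂ))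
    (hσ : Function.Bijective σ)
    (hu : ∀ v ∈ unV (Ideal.span {up f F}), Algebra.norm K ((v : 𝓞 F) : F) = 1)
    (htor : ∀ v ∈ unV (Ideal.span {up f F}), ∀ k : ℕ, 0 < k → v ^ k = 1 → v = 1)
    (𝔟 : Ideal (𝓞 F)) (hb : 𝔟 ≠ ⊥) (t : 𝓞 F) (ht : t ∈ 𝔟) (ht' : t ∉ Ideal.span {up f F} * 𝔟)
    (htt' : algebraMap (𝓞 K) (𝓞 F) χ₀ * t ∉ Ideal.span {up f F} * 𝔟)
    (g : ℂ → ℂ) (hg : Differentiable ℂ g)
    (hgs : ∀ X : Set F, IsRepsU (Ideal.span {up f F}) (cls 𝔟 (Ideal.span {up f F}) t) X →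
      ∀ s : ℂ, 2 < s.re → HasSum (fun z : X => term s (z : F)) (g s))
    (g' : ℂ → ℂ) (hg' : Differentiable ℂ g')
    (hgs' : ∀ X : Set F, IsRepsU (Ideal.span {up f F})
      (cls 𝔟 (Ideal.span {up f F}) (algebraMap (𝓞 K) (𝓞 F) χ₀ * t)) X →
      ∀ s : ℂ, 2 < s.re → HasSum (fun z : X => term s (z : F)) (g' s))
    (bb : Module.Basis (Fin (m + 1)) K F) :
    τ (g 1 / (Om ^ (m + 1) * dt σ bb)) = g' 1 / (Om ^ (m + 1) * dt σ bb) := by
  classical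
  have hn : Module.finrank K F = m + 1 := nf_card σ hσ
  have hq1 : q ≠ 1 := hq.one_lt.ne'
  have h3q : Nat.Coprime 3 q := (Nat.coprime_primes Nat.prime_three hq).2 (Ne.symm hq3)
  have hup : up f F ≠ 0 := by
    intro h
    exact hf0 ((FaithfulSMul.algebraMap_injective (𝓞 K) (𝓞 F)) (by rw [map_zero]; exact h))
  have hm : (Ideal.span {up f F} : Ideal (𝓞 F)) ≠ ⊥ := by
    rw [Ne, Ideal.span_singleton_eq_bot]
    exact hup
  have hm2 : IsCoprime (Ideal.span {up f F} : Ideal (𝓞 F)) (Ideal.span {(q : 𝓞 F)}) := by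
    rw [Ideal.isCoprime_span_singleton_iff]
    have h := hfq.map (algebraMap (𝓞 K) (𝓞 F))
    rwa [map_natCast] at h
  have ht2 : algebraMap (𝓞 K) (𝓞 F) χ₀ * t ∈ 𝔟 := Ideal.mul_mem_left _ _ ht
  obtain ⟨N, hNodd, hN⟩ : ∃ N : ℕ, N.Coprime q ∧ (N : 𝓞 F) ∈ (Ideal.span {up f F} : Ideal (𝓞 F)) :=
    ⟨Ideal.absNorm (Ideal.span {up f F}), absNorm_cop hq _ hm2, Ideal.absNorm_mem _⟩
  have hN3 : (3 * N).Coprime q := Nat.Coprime.mul_left h3q hNodd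
  obtain ⟨β', b', hβ'⟩ := Ell.sm_exists (F := F) hq ε₀ hε₀ hε₁ (3 * N) hN3
  have hR' : ((3 * N : ℕ) : 𝓞 F) ∈ (Ideal.span {up f F} : Ideal (𝓞 F)) := by
    push_cast
    exact Ideal.mul_mem_left _ _ hN
  obtain ⟨b1, hbb, hbb'⟩ := dl_basis 𝔟 hb hn
  obtain ⟨v₀, hv₀⟩ := Ell.gen_exists hq1 𝔟 hb hβ'
  obtain ⟨ε, hε, hεb⟩ := Ell.un_free σ hσ (Ideal.span {up f F}) hm htor
  obtain ⟨S, hS1, hS2, hS3⟩ := Ell.co_S hq 𝔟 β' b' hβ' b1 hbb v₀ hv₀ ε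
  obtain ⟨R₀, hR₀, hadm⟩ := Ell.de_adm hq 𝔟 (Ideal.span {up f F}) hb hm t ht 3 le_rfl
    (Dvd.intro N rfl) β' b' hβ' S hS1
  obtain ⟨R₁, hR₁, hadm'⟩ := Ell.de_adm hq 𝔟 (Ideal.span {up f F}) hb hm
    (algebraMap (𝓞 K) (𝓞 F) χ₀ * t) ht2 3 le_rfl (Dvd.intro N rfl) β' b' hβ' S hS1
  have hN1 : (Ideal.absNorm (Ideal.span {β'})).Coprime q := absNorm_cop' hq β' (de_copq hβ')
  have hN2 : β' ∣ ((Ideal.absNorm (Ideal.span {β'}) : ℕ) : 𝓞 F) := by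
    rw [← Ideal.mem_span_singleton]
    exact Ideal.absNorm_mem _
  obtain ⟨N', hN'⟩ : ∃ N' : ℕ, N' = Ideal.absNorm (Ideal.span {β'}) := ⟨_, rfl⟩
  rw [← hN'] at hN1 hN2
  have hRodd : (3 * (R₀ * R₁) * N * N').Coprime q :=
    Nat.Coprime.mul_left (Nat.Coprime.mul_left (Nat.Coprime.mul_left h3q
      (Nat.Coprime.mul_left hR₀ hR₁)) hNodd) hN1
  obtain ⟨β, b, hβ⟩ := Ell.sm_exists (F := F) hq ε₀ hε₀ hε₁ (3 * (R₀ * R₁) * N * N') hRodd
  have hR : ((3 * (R₀ * R₁) * N * N' : ℕ) : 𝓞 F) ∈ (Ideal.span {up f F} : Ideal (𝓞 F)) := by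
    push_cast
    exact Ideal.mul_mem_right _ _ (Ideal.mul_mem_left _ _ hN)
  have hcop : IsCoprime β β' := by
    have h := Ell.de_cop hq hβ N' (Nat.pos_of_ne_zero (cop_ne hq hN1)) (fun t _ ht2 => ht2.mul_left _)
    exact h.of_isCoprime_of_dvd_right hN2
  have hne : ∀ {R : ℕ} {γ : 𝓞 F} {c : 𝓞 K}, Ell.Smooth q R γ c → γ ≠ 0 := by
    rintro R γ c h rfl
    have h1 := h.nrm
    have h2 : c = 0 := by
      have h3 : Algebra.norm K ((0 : 𝓞 F) : F) = 0 := by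
        rw [show ((0 : 𝓞 F) : F) = 0 from rfl]
        exact Algebra.norm_zero
      rw [h3] at h1
      exact_mod_cast h1.symm
    exact kq_ne hq1 h.c0 h2
  have hβ0 : β ≠ 0 := hne hβ
  have hβ'0 : β' ≠ 0 := hne hβ'
  have hAdm := hadm (3 * (R₀ * R₁) * N * N') β b ⟨3 * R₁ * N * N', by ring⟩ hβ
  have hAdm' := hadm' (3 * (R₀ * R₁) * N * N') β b ⟨3 * R₀ * N * N', by ring⟩ hβ
  obtain ⟨I, hI1, hI2, hI3, hI4⟩ := s2_main σ hσ (del 𝔟 (Ideal.span {up f F}) t β' β b) (S : Set F)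
    S.finite_toSet hAdm
  obtain ⟨I', hI1', hI2', hI3', hI4'⟩ := s2_main σ hσ
    (del 𝔟 (Ideal.span {up f F}) (algebraMap (𝓞 K) (𝓞 F) χ₀ * t) β' β b) (S : Set F)
    S.finite_toSet hAdm'
  have hεne : ∀ i, ((ε i : 𝓞 F) : F) ≠ 0 := fun i => by
    have h1 : ((ε i : (𝓞 F)ˣ) : 𝓞 F) ≠ 0 := (ε i).ne_zero
    exact RingOfIntegers.coe_ne_zero_iff.2 h1
  have hreg := Ell.un_det σ hσ (Ideal.span {up f F}) hm ε hεb
  obtain ⟨g₂, hg₂, hg₂s, hg₂v⟩ := hI4 (fun i => ((ε i : 𝓞 F) : F)) hεne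
    (fun i => hu (ε i) (hε i))
    (fun i z => (co_inv 𝔟 (Ideal.span {up f F}) t ht β' β b (ε i) (hε i) z).1) hreg
  obtain ⟨g₃, hg₃, hg₃s, hg₃v⟩ := hI4' (fun i => ((ε i : 𝓞 F) : F)) hεne
    (fun i => hu (ε i) (hε i))
    (fun i z => (co_inv 𝔟 (Ideal.span {up f F}) (algebraMap (𝓞 K) (𝓞 F) χ₀ * t) ht2 β' β b
      (ε i) (hε i) z).1) hreg
  -- the values at `1`
  have hv0 : v₀ ≠ 0 := by
    have h1 := hS2 ∅
    rw [Finset.prod_empty, mul_one] at h1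
    exact (hAdm.ne v₀ h1).1
  have hval := hg₂v v₀ hv0 (fun T => hS2 T)
  have hval' := hg₃v v₀ hv0 (fun T => hS2 T)
  -- the invariance
  have hOm : (Om : ℂ) ≠ 0 := Om_ne_zero
  have hd0 : dt σ b1 ≠ 0 := dt_ne σ hσ b1
  have hOn : Om ^ (m + 1) ≠ 0 := pow_ne_zero _ hOm
  obtain ⟨C, hC⟩ : ∃ C : ℂ, C = Om ^ (m + 1) * dt σ b1 := ⟨_, rfl⟩
  have hC0 : C ≠ 0 := by rw [hC]; exact mul_ne_zero hOn hd0
  have hpath : ∀ s : Equiv.Perm (Fin m), τ (I (path (fun i => ((ε i : 𝓞 F) : F)) s v₀) / C) =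
      I' (path (fun i => ((ε i : 𝓞 F) : F)) s v₀) / C := by
    intro s
    have h := hS3 (fun v => τ (I v / C) - I' v / C) ⊥ (fun w hw => Va_alt (hI1 w hw) (hI1' w hw))
      (fun w hw hd => ?_) ?_ s
    · exact sub_eq_zero.1 ((AddSubgroup.mem_bot).1 h)
    · rw [hI2 w hw hd, hI2' w hw hd, zero_div, map_zero, sub_zero]
    · intro w hw hl huni
      rw [AddSubgroup.mem_bot]
      obtain ⟨D₁, c₁, -, -, hD₁, hc₁, h11, h12⟩ := Ell.fr_val hq 𝔟 (Ideal.span {up f F}) hm2 t ht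
        β' β b' b hβ' hβ b1 hbb hbb' w (fun i => hS1 _ (hw i)) huni
      obtain ⟨D₂, c₂, -, -, hD₂, hc₂, h21, h22⟩ := Ell.fr_val hq 𝔟 (Ideal.span {up f F}) hm2
        (algebraMap (𝓞 K) (𝓞 F) χ₀ * t) ht2
        β' β b' b hβ' hβ b1 hbb hbb' w (fun i => hS1 _ (hw i)) huni
      obtain ⟨D, hDD⟩ : ∃ D, D = D₁ * D₂ := ⟨_, rfl⟩
      obtain ⟨c, hcc⟩ : ∃ c, c = c₁ * c₂ := ⟨_, rfl⟩
      have hD : 0 < D := by rw [hDD]; exact Nat.mul_pos hD₁ hD₂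
      have hc : 0 < c := by rw [hcc]; exact Nat.mul_pos hc₁ hc₂
      obtain ⟨h1, h2⟩ := Va_scale h11 h12 (D' := D) (c' := c) (hDD ▸ dvd_mul_right _ _)
        (hcc ▸ dvd_mul_right _ _)
      obtain ⟨h1', h2'⟩ := Va_scale h21 h22 (D' := D) (c' := c) (hDD ▸ dvd_mul_left _ _)
        (hcc ▸ dvd_mul_left _ _)
      obtain ⟨zz, hzz⟩ := co3_zz hn w hl
      have hsum := sum_act hτ hact hup 𝔟 hb t ht β' β hβ'0 hβ0 b w D c hD hc h2' zz hzz
      have hIw := hI3 w hw hl D c hD hc h1 h2 zz hzz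
      have hIw' := hI3' w hw hl D c hD hc h1' h2' zz hzz
      have hdw : (Matrix.of fun i j => σ j (w i)).det = embK (b1.det w) * dt σ b1 := dt_rel σ b1 w
      have hE : ∀ x : Fin (m + 1) → Fin (c * D) × Fin (c * D),
          ∏ i, (c : ℂ)⁻¹ * E1 (ixC D c (x i) / c) =
            Om ^ (m + 1) * ∏ i, (c : ℂ)⁻¹ * (E1 (ixC D c (x i) / c) / Om) := by
        intro x
        have h4 : ∀ i, (c : ℂ)⁻¹ * E1 (ixC D c (x i) / c) =
            Om * ((c : ℂ)⁻¹ * (E1 (ixC D c (x i) / c) / Om)) := fun i => by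
          rw [mul_left_comm, mul_div_cancel₀ _ hOm]
        rw [Finset.prod_congr rfl fun i _ => h4 i, Finset.prod_mul_distrib, Finset.prod_const,
          Finset.card_univ, Fintype.card_fin]
      have hsum2 : ∀ t₁ : 𝓞 F, ∑ x : Fin (m + 1) → Fin (c * D) × Fin (c * D),
          del 𝔟 (Ideal.span {up f F}) t₁ β' β b (zz fun i => ixK D c (x i)) *
            ∏ i, (c : ℂ)⁻¹ * E1 (ixC D c (x i) / c) = Om ^ (m + 1) *
          ∑ x : Fin (m + 1) → Fin (c * D) × Fin (c * D),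
            del 𝔟 (Ideal.span {up f F}) t₁ β' β b (zz fun i => ixK D c (x i)) *
              ∏ i, (c : ℂ)⁻¹ * (E1 (ixC D c (x i) / c) / Om) := by
        intro t₁
        rw [Finset.mul_sum]
        refine Finset.sum_congr rfl fun x _ => ?_
        rw [hE x]
        ring
      rw [hsum2] at hIw hIw'
      have hquot : ∀ A B Sg : ℂ, A = (Matrix.of fun i j => σ j (w i)).det * (Om ^ (m + 1) * Sg) →
          A / C = embK (b1.det w) * Sg := by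
        intro A B Sg hA
        rw [hA, hdw, hC]
        field_simp
      change τ (I w / C) - I' w / C = 0
      rw [hquot _ 0 _ hIw, hquot _ 0 _ hIw', map_mul, fx_K hτ, hsum, sub_self]
  have hg2 : τ (g₂ 1 / C) = g₃ 1 / C := by
    have h1 : ∀ (G : ℂ) (J : (Fin (m + 1) → F) → ℂ),
        G = ((SignType.sign (regM σ fun i => ((ε i : 𝓞 F) : F)).det : ℤ) : ℂ) *
          ∑ s : Equiv.Perm (Fin m), ((Equiv.Perm.sign s : ℤ) : ℂ) *
            J (path (fun i => ((ε i : 𝓞 F) : F)) s v₀) →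
        G / C = ((SignType.sign (regM σ fun i => ((ε i : 𝓞 F) : F)).det : ℤ) : ℂ) *
        ∑ s : Equiv.Perm (Fin m), ((Equiv.Perm.sign s : ℤ) : ℂ) *
          (J (path (fun i => ((ε i : 𝓞 F) : F)) s v₀) / C) := by
      intro G J hG
      rw [hG, mul_div_assoc, Finset.sum_div]
      congr 1
      refine Finset.sum_congr rfl fun s _ => ?_
      rw [mul_div_assoc]
    rw [h1 _ I hval, h1 _ I' hval', map_mul, map_intCast, map_sum]
    congr 1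
    refine Finset.sum_congr rfl fun s _ => ?_
    rw [map_mul, map_intCast, hpath s]
  -- the functional equation of the smoothing
  have h3R : 3 ∣ 3 * (R₀ * R₁) * N * N' := ⟨R₀ * R₁ * N * N', by ring⟩
  have hg1 : g₂ 1 = g 1 * facQ b 1 * facP b' 1 :=
    Va_up hq1 ht ht' hu hR hR' h3R hβ hβ' hcop hε hεb hg hgs hg₂ hg₂s
  have hg1' : g₃ 1 = g' 1 * facQ b 1 * facP b' 1 :=
    Va_up hq1 ht2 htt' hu hR hR' h3R hβ hβ' hcop hε hεb hg' hgs' hg₃ hg₃s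
  obtain ⟨hQ1, hP1, hτQ, hτP⟩ := Va_fac hq hτ hβ.c0 hβ.c1 hβ'.c0 hβ'.c1
  have hkey : τ (g 1 / C) = g' 1 / C := by
    have h1 : g 1 / C = g₂ 1 / C * (facQ b 1)⁻¹ * (facP b' 1)⁻¹ := by
      rw [hg1]
      field_simp
    have h1' : g' 1 / C = g₃ 1 / C * (facQ b 1)⁻¹ * (facP b' 1)⁻¹ := by
      rw [hg1']
      field_simp
    rw [h1, h1', map_mul, map_mul, map_inv₀, map_inv₀, hτQ, hτP, hg2]
  have hdb : dt σ bb = embK (b1.det bb) * dt σ b1 := dt_rel σ b1 bb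
  have h1 : ∀ G : ℂ, G / (Om ^ (m + 1) * dt σ bb) = G / C * (embK (b1.det bb))⁻¹ := by
    intro G
    rw [hdb, hC]
    have h2 : embK (b1.det bb) ≠ 0 := by
      intro h0
      rw [h0, zero_mul] at hdb
      exact dt_ne σ hσ bb hdb
    field_simp
  rw [h1, h1, map_mul, map_inv₀, fx_K hτ, hkey]

theorem val_act {m : ℕ} {τ : ℂ ≃+* ℂ} (hτ : Fix τ) {f χ₀ : 𝓞 K} (hact : Hact τ f χ₀)
    (hf0 : f ≠ 0) (σ : Fin (m + 1) → (F →ₐ[K] ℂ)) (hσ : Function.Bijective σ)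
    (hu : ∀ v ∈ unV (Ideal.span {up f F}), Algebra.norm K ((v : 𝓞 F) : F) = 1)
    (htor : ∀ v ∈ unV (Ideal.span {up f F}), ∀ k : ℕ, 0 < k → v ^ k = 1 → v = 1)
    (𝔟 : Ideal (𝓞 F)) (hb : 𝔟 ≠ ⊥) (t : 𝓞 F) (ht : t ∈ 𝔟) (ht' : t ∉ Ideal.span {up f F} * 𝔟)
    (htt' : algebraMap (𝓞 K) (𝓞 F) χ₀ * t ∉ Ideal.span {up f F} * 𝔟)
    (g : ℂ → ℂ) (hg : Differentiable ℂ g)
    (hgs : ∀ X : Set F, IsRepsU (Ideal.span {up f F}) (cls 𝔟 (Ideal.span {up f F}) t) X →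
      ∀ s : ℂ, 2 < s.re → HasSum (fun z : X => term s (z : F)) (g s))
    (g' : ℂ → ℂ) (hg' : Differentiable ℂ g')
    (hgs' : ∀ X : Set F, IsRepsU (Ideal.span {up f F})
      (cls 𝔟 (Ideal.span {up f F}) (algebraMap (𝓞 K) (𝓞 F) χ₀ * t)) X →
      ∀ s : ℂ, 2 < s.re → HasSum (fun z : X => term s (z : F)) (g' s))
    (bb : Module.Basis (Fin (m + 1)) K F) :
    τ (g 1 / (Om ^ (m + 1) * dt σ bb)) = g' 1 / (Om ^ (m + 1) * dt σ bb) := by
  have hn : Module.finrank K F = m + 1 := nf_card σ hσ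
  obtain ⟨q, hq, hq3, h2, h2n, hfq⟩ := exists_q f hf0 (Module.finrank K F) (by omega)
  exact val_act_q hq hq3 2 h2 h2n hτ hact hf0 hfq σ hσ hu htor 𝔟 hb t ht ht' htt' g hg hgs g' hg' hgs' bb

end Pool.Agent.Lib.MP_1a91b9_ntX.RG
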