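import Pool.Agent.Lib.MP_1a91b9_ntX.RG.Cls
import Pool.Agent.Lib.MP_1a91b9_ntX.RG.Un
import Pool.Agent.Lib.MP_1a91b9_ntX.RG.Va
import Pool.Agent.Lib.MP_1a91b9_ntX.RG.Dl
import Pool.Agent.Lib.MP_1a91b9_ntT.Rg.Three

/-!
# `L(ψbar_F, 1)` is `(Om / δ) ^ n * d * x` with `x ∈ K`

Proof. Adapt `lval` in MP_1a91b9_ntT/Rg/Lv.lean (and `Rg/Three.lean`). `n = m + 1 = finrank K F`, `M = span {up HC.f F}`; `M ≠ 0`, `M ≠ 1` (`AN.up_span_ne_top`).
Units congruent to `1` modulo `f`: norm `1` (`norm_one` there: the norm is a unit of `𝓞 K` congruent to `1` modulo `f`, `3 ∣ f` (`HC.hd.three`), `S4.unit_eq_one`) and no torsion (`htor`): `3 ∣ f`, so such units are congruent to `1` modulo `3`: see the case `f = 3` in `Rg/Three.lean`, `lval_three`.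
`exists_csys M (span {q})` (RG/Cls) with the auxiliary prime `q` of `Rg.exists_q HC.f ..`: `ι`, `b`, `t`. For any `t' ∈ b i`, `t' ∉ M * b i` the partial L-series of the class of `t'` is entire: `Ell.co_entire` as in `lval`: choose `A i` for `t i` and `A' i` for `t' i = χ₀ t i`, entire, with `hAs`, `hAs'`
(the theorem `co_entire` needs `t' i ∉ M * b i`: from `CSys.smul` for `X = χ₀`: its field `notMem`; `χ₀` prime to `f`, so `span {algebraMap χ₀}` is prime to `M`).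
`L s := ∑ i, kk (b i) (t i) * N(b i) ^ s * A i s` is entire and `= Lf (psbC F) s` for `2 < Re s`: `unfold_C` (RG/Un), and `Lf (psbC F * indC M) = Lf (psbC F)` as in `lval` (`AN.Lf_indC`, `AN.psbC_bad`).
Put `T = L 1 / (Om ^ n * dt σ bb)`. CLAIM: `τ (T * δ ^ n) = T * δ ^ n` for all `τ` with `Fix τ`. Let `M₁ : ℕ` be `Nmax = 3 * absNorm (span {HC.f}) * natAbs (6 D)` (or any `M₁ > 0` with `HC.f ∣ M₁`, `6 D ∣ M₁`: the hypothesis `hg` is for all such `M₁`). `exists_act2 hτ M₁` (RG/Act): `χ₀`; `Hact τ HC.f χ₀` (weaken `M₁ ∣ χ - χ₀`). `ps_act` (RG/Dl): `u`.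
`val_act` (RG/Va) for every `i`: `τ (A i 1 / (Om ^ n * dt)) = A' i 1 / (Om ^ n * dt)`. `kk (b i) (t i) = embK y` is fixed by `τ` (`kk_mem`, `Rq.fx_K`). `kk (b i) (χ₀ t i) = conj (embK u) ^ n * kk (b i) (t i)` (`kk_smul`), `conj (embK u) = (embK u)⁻¹` (`u ^ 6 = 1`). So `τ T = ∑ i, kk (b i) (t i) N(b i) A' i 1 / (Om ^ n dt) = embK u ^ n * ∑ i, kk (b i) (χ₀ t i) N(b i) A' i 1 / (Om ^ n dt)`
and the last sum is `T`: `L' s := ∑ i, kk (b i) (χ₀ t i) * N(b i) ^ s * A' i s` is entire and `= Lf (psbC F) s` for `2 < Re s` by `unfold_C` for the system `CSys.smul`, so `L' = L` (`S4.entire_eq`), `L' 1 = L 1`. And `τ δ = (embK u)⁻¹ δ`.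
Then `Rg.mem_K` gives `x` with `embK x = T * δ ^ n`.
-/

set_option autoImplicit false

namespace Pool.Agent.Lib.MP_1a91b9_ntX.RG

open NumberField IsDedekindDomain Pool.Agent.Lib.MP_1a91b9_nt Pool.Agent.Lib.MP_1a91b9_ntT
  Pool.Agent.Lib.MP_1a91b9_ntT.S4
open Pool.Agent.Lib.MP_1a91b9_ntG (up)
open Pool.Agent.Lib.MP_1a91b9_ntX.AN (psbC psC)
open Pool.Agent.Lib.MP_1a91b9_ntT.Rq (dt Fix)

universe u

variable [DD] [HC] {F : Type u} [Field F] [NumberField F] [Algebra K F]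

private theorem Lv_norm_one (u : (𝓞 F)ˣ) (hu : u ∈ unV (Ideal.span {up HC.f F})) :
    Algebra.norm K ((u : 𝓞 F) : F) = 1 := by
  have h1 : algebraMap (𝓞 K) (𝓞 F) HC.f ∣ (u : 𝓞 F) - 1 := Ideal.mem_span_singleton.1 hu
  have h2 := S4.nK_congr (F := F) HC.f (u : 𝓞 F) 1 h1
  rw [S4.nK_one] at h2
  have h3 : IsUnit (S4.nK (u : 𝓞 F)) := u.isUnit.map (Algebra.intNorm (𝓞 K) (𝓞 F))
  obtain ⟨u', hu'⟩ := h3
  rw [← hu'] at h2
  have h4 := S4.unit_eq_one u' (HC.hd.three.trans h2)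
  have h5 : (S4.nK (u : 𝓞 F) : 𝓞 K) = 1 := by rw [← hu', h4, Units.val_one]
  rw [← S4.nK_coe, h5]
  exact map_one _

omit [DD] [HC] [Field F] [NumberField F] [Algebra K F] in
private theorem Lv_unit (u : (𝓞 K)ˣ) :
    embK ((u : 𝓞 K) : K) * (starRingEnd ℂ) (embK ((u : 𝓞 K) : K)) = 1 := by
  have h1 : (Ideal.absNorm (Ideal.span {(u : 𝓞 K)}) : ℝ) = ‖embK ((u : 𝓞 K) : K)‖ ^ 2 := by
    rw [← bs1_card, Ideal.absNorm_apply, Submodule.cardQuot_apply]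
  have h2 : Ideal.span {(u : 𝓞 K)} = ⊤ := Ideal.span_singleton_eq_top.2 u.isUnit
  rw [h2, Ideal.absNorm_top, Nat.cast_one] at h1
  rw [Complex.mul_conj, Complex.normSq_eq_norm_sq, ← h1, Complex.ofReal_one]

private theorem Lv_M : ∃ M : ℕ, 0 < M ∧ (HC.f : 𝓞 K) ∣ (M : 𝓞 K) ∧
    ((6 * DD.D : ℤ) : 𝓞 K) ∣ (M : 𝓞 K) := by
  have hf := AN.f_ne
  refine ⟨Ideal.absNorm (Ideal.span {(HC.f : 𝓞 K)}) * (6 * DD.D).natAbs, ?_, ?_, ?_⟩
  · refine Nat.mul_pos ?_ ?_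
    · rw [Nat.pos_iff_ne_zero, Ne, Ideal.absNorm_eq_zero_iff, Ideal.span_singleton_eq_bot]
      exact hf
    · rw [Int.natAbs_pos]
      exact mul_ne_zero (by norm_num) DD.ne
  · rw [Nat.cast_mul]
    exact Dvd.dvd.mul_right (Ideal.mem_span_singleton.1 (Ideal.absNorm_mem _)) _
  · rw [Nat.cast_mul]
    refine Dvd.dvd.mul_left ?_ _
    have h1 : (6 * DD.D : ℤ) ∣ (((6 * DD.D).natAbs : ℕ) : ℤ) := Int.dvd_natAbs.2 (dvd_refl _)
    have h2 := map_dvd (Int.castRingHom (𝓞 K)) h1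
    rw [eq_intCast, eq_intCast, Int.cast_natCast] at h2
    exact h2

theorem lval (hg : ∀ M : ℕ, 0 < M → (HC.f : 𝓞 K) ∣ (M : 𝓞 K) →
      ((6 * DD.D : ℤ) : 𝓞 K) ∣ (M : 𝓞 K) → GalPs M)
    {m : ℕ} (σ : Fin (m + 1) → (F →ₐ[K] ℂ)) (hσ : Function.Bijective σ)
    {δ : ℂ} (hδ : 16 * δ ^ 6 = dD ℂ) (bb : Module.Basis (Fin (m + 1)) K F) :
    ∃ (L : ℂ → ℂ) (x : K), Differentiable ℂ L ∧
      (∀ s : ℂ, 2 < s.re → L s = Lf (psbC F) s) ∧
      L 1 = (Om / δ) ^ (m + 1) * dt σ bb * embK x := by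
  have hn : Module.finrank K F = m + 1 := nf_card σ hσ
  obtain ⟨q, hq, hq3, h2, h2n, hfq⟩ := Rg.exists_q HC.f AN.f_ne (Module.finrank K F) (by omega)
  have h3q : Nat.Coprime 3 q := (Nat.coprime_primes Nat.prime_three hq).2 (Ne.symm hq3)
  have hinj := FaithfulSMul.algebraMap_injective (𝓞 K) (𝓞 F)
  have h30 : Ideal.span {up HC.f F} ≠ 0 := by
    rw [Ne, Ideal.zero_eq_bot, Ideal.span_singleton_eq_bot]
    intro h
    exact AN.f_ne (hinj (by rw [map_zero]; exact h))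
  have h31 : Ideal.span {up HC.f F} ≠ 1 := AN.up_span_ne_top
  have h32 : IsCoprime (Ideal.span {up HC.f F}) (Ideal.span {(q : 𝓞 F)}) := by
    rw [Ideal.isCoprime_span_singleton_iff]
    have h := hfq.map (algebraMap (𝓞 K) (𝓞 F))
    rwa [map_natCast] at h
  have h33 : Ideal.span {up HC.f F} ≤ Ideal.span {(3 : 𝓞 F)} := by
    rw [Ideal.span_singleton_le_span_singleton]
    have h := map_dvd (algebraMap (𝓞 K) (𝓞 F)) (HC.hd.three)
    rwa [map_ofNat] at h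
  have hc0 : Ideal.span {(q : 𝓞 F)} ≠ 0 := by
    rw [Ne, Ideal.zero_eq_bot, Ideal.span_singleton_eq_bot]
    exact_mod_cast hq.ne_zero
  have hu : ∀ v ∈ unV (Ideal.span {up HC.f F}), Algebra.norm K ((v : 𝓞 F) : F) = 1 :=
    fun v hv => Lv_norm_one v hv
  have htor : ∀ v ∈ unV (Ideal.span {up HC.f F}), ∀ k : ℕ, 0 < k → v ^ k = 1 → v = 1 :=
    fun v hv k hk hvk => un_tors _ h33 v hv k hk hvk
  obtain ⟨ι, hι, b, t, hC, hbc⟩ := exists_csys (Ideal.span {up HC.f F}) (Ideal.span {(q : 𝓞 F)})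
    h30 h31 hc0
  have hgood : ∀ t' : ι → 𝓞 F, CSys (Ideal.span {up HC.f F}) b t' → ∀ i, ∃ g : ℂ → ℂ,
      Differentiable ℂ g ∧ (∀ X : Set F, IsRepsU (Ideal.span {up HC.f F})
        (cls (b i) (Ideal.span {up HC.f F}) (t' i)) X →
        ∀ s : ℂ, 2 < s.re → HasSum (fun z : X => term s (z : F)) (g s)) := fun t' hC' i =>
    Ell.co_entire hq 3 le_rfl h3q 2 h2 h2n σ hσ (b i) (Ideal.span {up HC.f F}) (hC'.ne i) h30 h32 hu
      htor (t' i) (hC'.mem i) (hC'.notMem i)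
  have hNb : ∀ i, (Ideal.absNorm (b i) : ℂ) ≠ 0 := by
    intro i
    have := Ideal.absNorm_ne_zero_iff_mem_nonZeroDivisors.mpr
      (mem_nonZeroDivisors_iff_ne_zero.mpr (hC.ne i))
    exact_mod_cast this
  have hsum : ∀ (t' : ι → 𝓞 F), CSys (Ideal.span {up HC.f F}) b t' → ∀ (A : ι → ℂ → ℂ),
      (∀ i, (∀ X : Set F, IsRepsU (Ideal.span {up HC.f F})
        (cls (b i) (Ideal.span {up HC.f F}) (t' i)) X →
        ∀ s : ℂ, 2 < s.re → HasSum (fun z : X => term s (z : F)) (A i s))) →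
      ∀ s : ℂ, 2 < s.re → ∑ i, kk (b i) (t' i) * (Ideal.absNorm (b i) : ℂ) ^ s * A i s =
        Lf (psbC F) s := by
    intro t' hC' A hAs s hs
    rw [← unfold_C hC' A (fun i R hR s hs => S7.hasSum_coe
      (hAs i _ (S7.repsU_of_isRep (hC'.notMem i) hR) s hs)) s hs]
    have hfin : {v : HeightOneSpectrum (𝓞 F) | Ideal.span {up HC.f F} ≤ v.asIdeal}.Finite := by
      refine (Ideal.finite_factors h30).subset fun v hv => ?_
      exact Ideal.dvd_iff_le.mpr hv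
    rw [AN.Lf_indC _ hfin.toFinset (fun v => by rw [Set.Finite.mem_toFinset]; rfl) s hs]
    have e : ∏ v ∈ hfin.toFinset, (1 - psbC F v.asIdeal *
        (Ideal.absNorm v.asIdeal : ℂ) ^ (-s)) = 1 := by
      refine Finset.prod_eq_one fun v hv => ?_
      rw [Set.Finite.mem_toFinset] at hv
      have hv' : Ideal.span {up HC.f F} ≤ v.asIdeal := hv
      rw [Ideal.span_singleton_le_iff_mem] at hv'
      rw [AN.psbC_bad v hv', zero_mul, sub_zero]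
    rw [e, mul_one]
  have hdiff : ∀ (t' : ι → 𝓞 F) (A : ι → ℂ → ℂ), (∀ i, Differentiable ℂ (A i)) →
      Differentiable ℂ fun s : ℂ => ∑ i, kk (b i) (t' i) *
        (Ideal.absNorm (b i) : ℂ) ^ s * A i s := by
    intro t' A hA
    refine Differentiable.fun_sum fun i _ => ?_
    refine Differentiable.mul ?_ (hA i)
    refine Differentiable.mul (differentiable_const _) ?_
    exact (differentiable_id).const_cpow (Or.inl (hNb i))
  choose A hA hAs using hgood t hC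
  have hδ0 : δ ≠ 0 := by
    rintro rfl
    have h1 : dD ℂ = 0 := by rw [← hδ]; ring
    have h3 : ((DD.D : ℤ) : ℂ) = 0 := h1
    exact DD.ne (Int.cast_eq_zero.1 h3)
  have hΩ : Om ^ (m + 1) * dt σ bb ≠ 0 := mul_ne_zero (pow_ne_zero _ Om_ne_zero) (Rq.dt_ne σ hσ bb)
  obtain ⟨M₁, hM0, hM1, hM2⟩ := Lv_M
  set S : ℂ := ∑ i, kk (b i) (t i) * (Ideal.absNorm (b i) : ℂ) ^ (1 : ℂ) * A i 1 with hS
  have hfix : ∀ τ : ℂ ≃+* ℂ, Fix τ →
      τ (S / (Om ^ (m + 1) * dt σ bb) * δ ^ (m + 1)) =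
        S / (Om ^ (m + 1) * dt σ bb) * δ ^ (m + 1) := by
    intro τ hτ
    obtain ⟨χ₀, hcop, hRl, hact⟩ := exists_act2 hτ M₁ hM0
    have hactf : Hact τ HC.f χ₀ := by
      intro M hM
      obtain ⟨χ, h3, h4, h5⟩ := hact M hM
      exact ⟨χ, hM1.trans h3, h4, h5⟩
    obtain ⟨u, hu1, hu2⟩ := ps_act hM0 hM1 (hg M₁ hM0 hM1 hM2) hτ hRl hcop hδ
    have hcf : IsCoprime χ₀ HC.f := hcop.of_isCoprime_of_dvd_right hM1
    have hχ0 : χ₀ ≠ 0 := by
      rintro rfl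
      rw [isCoprime_zero_left] at hcf
      exact AN.f_not_isUnit hcf
    have hX0 : algebraMap (𝓞 K) (𝓞 F) χ₀ ≠ 0 := fun h => hχ0 (hinj (by rw [map_zero]; exact h))
    have hX : IsCoprime (Ideal.span {algebraMap (𝓞 K) (𝓞 F) χ₀}) (Ideal.span {up HC.f F}) := by
      rw [Ideal.isCoprime_span_singleton_iff]
      exact hcf.map (algebraMap (𝓞 K) (𝓞 F))
    have hC' := CSys.smul h31 hC hX hX0
    choose A' hA' hAs' using hgood (fun i => algebraMap (𝓞 K) (𝓞 F) χ₀ * t i) hC'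
    have hval : ∀ i, τ (A i 1 / (Om ^ (m + 1) * dt σ bb)) = A' i 1 / (Om ^ (m + 1) * dt σ bb) :=
      fun i => val_act hτ hactf AN.f_ne σ hσ hu htor (b i) (hC.ne i) (t i) (hC.mem i) (hC.notMem i)
        (hC'.notMem i) (A i) (hA i) (hAs i) (A' i) (hA' i) (hAs' i) bb
    have hL : (fun s : ℂ => ∑ i, kk (b i) (t i) * (Ideal.absNorm (b i) : ℂ) ^ s * A i s) =
        fun s : ℂ => ∑ i, kk (b i) (algebraMap (𝓞 K) (𝓞 F) χ₀ * t i) *
          (Ideal.absNorm (b i) : ℂ) ^ s * A' i s :=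
      entire_eq (hdiff t A hA) (hdiff _ A' hA') fun s hs => by
        rw [hsum t hC A hAs s hs, hsum _ hC' A' hAs' s hs]
    have hS' : S = ∑ i, kk (b i) (algebraMap (𝓞 K) (𝓞 F) χ₀ * t i) *
          (Ideal.absNorm (b i) : ℂ) ^ (1 : ℂ) * A' i 1 := congrFun hL 1
    have huu := Lv_unit u
    have hkk : ∀ i, kk (b i) (t i) = embK ((u : 𝓞 K) : K) ^ (m + 1) *
        kk (b i) (algebraMap (𝓞 K) (𝓞 F) χ₀ * t i) := by
      intro i
      rw [kk_smul hχ0 hu1, hn, ← mul_assoc, ← mul_pow, huu, one_pow, one_mul]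
    have hτkk : ∀ i, τ (kk (b i) (t i)) = kk (b i) (t i) := by
      intro i
      obtain ⟨y, hy⟩ := kk_mem (b i) (t i)
      rw [← hy, Rq.fx_K hτ]
    have hτS : τ (S / (Om ^ (m + 1) * dt σ bb)) =
        embK ((u : 𝓞 K) : K) ^ (m + 1) * (S / (Om ^ (m + 1) * dt σ bb)) := by
      have e1 : S / (Om ^ (m + 1) * dt σ bb) = ∑ i, kk (b i) (t i) * (Ideal.absNorm (b i) : ℂ) *
          (A i 1 / (Om ^ (m + 1) * dt σ bb)) := by
        rw [hS, Finset.sum_div]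
        refine Finset.sum_congr rfl fun i _ => ?_
        rw [Complex.cpow_one]
        ring
      have e2 : S / (Om ^ (m + 1) * dt σ bb) =
          ∑ i, kk (b i) (algebraMap (𝓞 K) (𝓞 F) χ₀ * t i) * (Ideal.absNorm (b i) : ℂ) *
          (A' i 1 / (Om ^ (m + 1) * dt σ bb)) := by
        rw [hS', Finset.sum_div]
        refine Finset.sum_congr rfl fun i _ => ?_
        rw [Complex.cpow_one]
        ring
      have e3 : τ (S / (Om ^ (m + 1) * dt σ bb)) = ∑ i, kk (b i) (t i) *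
          (Ideal.absNorm (b i) : ℂ) * (A' i 1 / (Om ^ (m + 1) * dt σ bb)) := by
        rw [e1, map_sum]
        refine Finset.sum_congr rfl fun i _ => ?_
        rw [map_mul, map_mul, hval i, hτkk i, map_natCast]
      rw [e3, e2, Finset.mul_sum]
      refine Finset.sum_congr rfl fun i _ => ?_
      rw [hkk i]
      ring
    rw [map_mul, map_pow, hτS]
    calc embK ((u : 𝓞 K) : K) ^ (m + 1) * (S / (Om ^ (m + 1) * dt σ bb)) * τ δ ^ (m + 1) =
        S / (Om ^ (m + 1) * dt σ bb) * (embK ((u : 𝓞 K) : K) * τ δ) ^ (m + 1) := by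
          rw [mul_pow]; ring
      _ = _ := by rw [hu2]
  obtain ⟨x, hx⟩ := Rg.mem_K hfix
  refine ⟨fun s : ℂ => ∑ i, kk (b i) (t i) * (Ideal.absNorm (b i) : ℂ) ^ s * A i s, x,
    hdiff t A hA, hsum t hC A hAs, ?_⟩
  show S = (Om / δ) ^ (m + 1) * dt σ bb * embK x
  rw [hx, div_pow]
  have hδn : δ ^ (m + 1) ≠ 0 := pow_ne_zero _ hδ0
  have hOm : Om ^ (m + 1) ≠ 0 := pow_ne_zero _ Om_ne_zero
  have hdt := Rq.dt_ne σ hσ bb
  field_simp

end Pool.Agent.Lib.MP_1a91b9_ntX.RG
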